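import Pool.Agent.Helper50.MM.RowLOC

/-!
# Project MM, block B3: row CUT
-/

open MeasureTheory Metric Set Filter

namespace CM50

open CM

variable {n : ℕ}

theorem exists_H0_of_compact {f : E n → ℝ} (hf : ContDiff ℝ 1 f) (hc : HasCompactSupport f) :
    ∃ K, 0 ≤ K ∧ H0 K f := by
  obtain ⟨L, hL⟩ := hf.lipschitzWith_of_hasCompactSupport hc (by norm_num)
  obtain ⟨C, hC⟩ := hc.exists_bound_of_continuous hf.continuous
  have hC0 : 0 ≤ C := (norm_nonneg _).trans (hC 0)
  have hL0 : (0 : ℝ) ≤ L := L.2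
  refine ⟨L + 2 * C, by positivity, fun x => ?_, fun x y => ?_⟩
  · have := hC x
    rw [Real.norm_eq_abs] at this
    linarith
  · have hs := Real.sqrt_nonneg (dist x y)
    rcases le_total (dist x y) 1 with hd | hd
    · have h1 : |f x - f y| ≤ L * dist x y := by
        have := hL.dist_le_mul x y
        rwa [Real.dist_eq] at this
      have h2 : dist x y ≤ Real.sqrt (dist x y) := by
        apply Real.le_sqrt_of_sq_le
        nlinarith [dist_nonneg (x := x) (y := y)]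
      calc _ ≤ (L : ℝ) * dist x y := h1
        _ ≤ L * Real.sqrt (dist x y) := mul_le_mul_of_nonneg_left h2 hL0
        _ ≤ (L + 2 * C) * Real.sqrt (dist x y) := by
            apply mul_le_mul_of_nonneg_right _ hs
            linarith
    · have h1 : |f x - f y| ≤ 2 * C := by
        have h1 := hC x
        have h2 := hC y
        rw [Real.norm_eq_abs] at h1 h2
        linarith [abs_sub (f x) (f y)]
      have h2 : 1 ≤ Real.sqrt (dist x y) := by
        rw [Real.one_le_sqrt]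
        exact hd
      nlinarith [mul_nonneg hL0 hs]

theorem compact_pd {f : E n → ℝ} (hc : HasCompactSupport f) (i : Fin n) :
    HasCompactSupport (pd i f) := by
  have h1 : HasCompactSupport (fderiv ℝ f) := hc.fderiv ℝ
  exact h1.comp_left (g := fun L : E n →L[ℝ] ℝ => L (EuclideanSpace.single i (1 : ℝ))) (by simp)

/-- Row CUT. -/
theorem row_CUT (n : ℕ) : StCUT n := by
  let b : ContDiffBump (0 : E n) := ⟨1, 2, by norm_num, by norm_num⟩
  obtain ⟨χ, hχ⟩ : ∃ χ : E n → ℝ, χ = fun x => b x := ⟨_, rfl⟩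
  have hs : ContDiff ℝ ((⊤ : ℕ∞) : WithTop ℕ∞) χ := by rw [hχ]; exact b.contDiff
  have hk : ∀ k : ℕ, ContDiff ℝ k χ := contDiff_infty.1 hs
  have hcs : HasCompactSupport χ := by rw [hχ]; exact b.hasCompactSupport
  have h1 : ∀ i, ContDiff ℝ (2 : ℕ) (pd i χ) := fun i => contDiff_pd (k := 2) (hk 3) i
  have h2 : ∀ i j, ContDiff ℝ (1 : ℕ) (pd i (pd j χ)) := fun i j =>
    contDiff_pd (k := 1) (h1 j) i
  obtain ⟨K0, hK0, hH0⟩ := exists_H0_of_compact (by exact_mod_cast hk 1) hcs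
  have e1 : ∀ i, ∃ K, 0 ≤ K ∧ H0 K (pd i χ) := fun i =>
    exists_H0_of_compact (by exact_mod_cast contDiff_pd (k := 1) (hk 2) i) (compact_pd hcs i)
  have e2 : ∀ i j, ∃ K, 0 ≤ K ∧ H0 K (pd i (pd j χ)) := fun i j =>
    exists_H0_of_compact (by exact_mod_cast h2 i j) (compact_pd (compact_pd hcs j) i)
  choose K1 hK1 hH1 using e1
  choose K2 hK2 hH2 using e2
  refine ⟨χ, K0 + (∑ i, K1 i + ∑ i, ∑ j, K2 i j), ?_, hs, ?_, ?_, ?_, ?_, ?_, ?_⟩
  · have a1 : 0 ≤ ∑ i, K1 i := Finset.sum_nonneg (fun i _ => hK1 i)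
    have a2 : 0 ≤ ∑ i, ∑ j, K2 i j :=
      Finset.sum_nonneg (fun i _ => Finset.sum_nonneg (fun j _ => hK2 i j))
    linarith
  · intro x
    rw [hχ]
    exact ⟨b.nonneg, b.le_one⟩
  · intro x hx
    rw [hχ]
    apply b.one_of_mem_closedBall
    rw [mem_closedBall, dist_zero_right]
    exact hx
  · intro x hx
    rw [hχ]
    apply b.zero_of_le_dist
    rw [dist_zero_right]
    exact hx
  · have a1 : 0 ≤ ∑ i, K1 i := Finset.sum_nonneg (fun i _ => hK1 i)
    have a2 : 0 ≤ ∑ i, ∑ j, K2 i j :=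
      Finset.sum_nonneg (fun i _ => Finset.sum_nonneg (fun j _ => hK2 i j))
    rw [← HS_univ] at hH0 ⊢
    exact hH0.mono (by linarith)
  · intro i
    have a1 : K1 i ≤ ∑ i, K1 i :=
      Finset.single_le_sum (fun i _ => hK1 i) (Finset.mem_univ i)
    have a2 : 0 ≤ ∑ i, ∑ j, K2 i j :=
      Finset.sum_nonneg (fun i _ => Finset.sum_nonneg (fun j _ => hK2 i j))
    rw [← HS_univ]
    exact (HS_univ.2 (hH1 i)).mono (by linarith)
  · intro i j
    have a1 : 0 ≤ ∑ i, K1 i := Finset.sum_nonneg (fun i _ => hK1 i)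
    have a2 : K2 i j ≤ ∑ j, K2 i j :=
      Finset.single_le_sum (fun j _ => hK2 i j) (Finset.mem_univ j)
    have a3 : ∑ j, K2 i j ≤ ∑ i, ∑ j, K2 i j :=
      Finset.single_le_sum (f := fun i => ∑ j, K2 i j)
        (fun i _ => Finset.sum_nonneg (fun j _ => hK2 i j)) (Finset.mem_univ i)
    rw [← HS_univ]
    exact (HS_univ.2 (hH2 i j)).mono (by linarith)

end CM50
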