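import Pool.Agent.Helper50.MM.RowLOC

/-!
# Project MM, block B3: row FAR
-/

open MeasureTheory Metric Set Filter

namespace CM50

open CM

variable {n : ℕ}

theorem pd_neg' (f : E n → ℝ) (i : Fin n) : pd i (fun x => - f x) = fun x => - pd i f x := by
  funext x
  simp only [pd]
  rw [fderiv_fun_neg]
  simp

theorem LB_one {c : ℝ} (hc : c ≤ 1) : LB c (1 : Mt n) := by
  intro v
  have h : ∀ i, ∑ j, v i * (1 : Mt n) i j * v j = v i ^ 2 := by
    intro i
    rw [Finset.sum_eq_single i]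
    · rw [Matrix.one_apply_eq]; ring
    · intro j _ hj
      rw [Matrix.one_apply_ne (Ne.symm hj)]; ring
    · intro h; exact absurd (Finset.mem_univ i) h
  rw [Finset.sum_congr rfl (fun i _ => h i)]
  have : 0 ≤ ∑ i, v i ^ 2 := Finset.sum_nonneg (fun i _ => sq_nonneg _)
  nlinarith

theorem UB_one {C : ℝ} (hC : 1 ≤ C) : UB C (1 : Mt n) := by
  intro v
  have h : ∀ i, ∑ j, v i * (1 : Mt n) i j * v j = v i ^ 2 := by
    intro i
    rw [Finset.sum_eq_single i]
    · rw [Matrix.one_apply_eq]; ring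
    · intro j _ hj
      rw [Matrix.one_apply_ne (Ne.symm hj)]; ring
    · intro h; exact absurd (Finset.mem_univ i) h
  rw [Finset.sum_congr rfl (fun i _ => h i)]
  have : 0 ≤ ∑ i, v i ^ 2 := Finset.sum_nonneg (fun i _ => sq_nonneg _)
  nlinarith

/-- Bounds on the ball of radius `ρ ≥ 1` give `HS` with a constant depending on `ρ`. -/
theorem HS_of_pd' {f : E n → ℝ} (hf : Differentiable ℝ f) {ρ B : ℝ} (hρ : 1 ≤ ρ) (hB : 0 ≤ B)
    (h0 : ∀ x ∈ closedBall (0 : E n) ρ, |f x| ≤ B)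
    (h : ∀ i, ∀ x ∈ closedBall (0 : E n) ρ, |pd i f x| ≤ B) :
    HS (closedBall (0 : E n) ρ) ((2 * ρ * n + 1) * B) f := by
  refine ⟨fun x hx => (h0 x hx).trans ?_, fun x hx y hy => ?_⟩
  · have : 0 ≤ 2 * ρ * (n : ℝ) * B := by positivity
    linarith
  · have h1 := lip_of_pd hf (convex_closedBall (0 : E n) ρ) h hx hy
    have hd : dist x y ≤ 2 * ρ := by
      have := dist_triangle_right x y 0
      rw [mem_closedBall] at hx hy
      linarith
    have h2 : dist x y ≤ 2 * ρ * Real.sqrt (dist x y) := by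
      have h3 : Real.sqrt (dist x y) ≤ 2 * ρ := by
        rw [Real.sqrt_le_left (by linarith)]
        nlinarith
      have h4 : Real.sqrt (dist x y) * Real.sqrt (dist x y) = dist x y :=
        Real.mul_self_sqrt dist_nonneg
      nlinarith [Real.sqrt_nonneg (dist x y)]
    have h5 : (n : ℝ) * B * dist x y ≤ n * B * (2 * ρ * Real.sqrt (dist x y)) :=
      mul_le_mul_of_nonneg_left h2 (by positivity)
    have h6 : 0 ≤ B * Real.sqrt (dist x y) := mul_nonneg hB (Real.sqrt_nonneg _)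
    nlinarith

theorem HS_coord' {ρ : ℝ} (hρ : 1 ≤ ρ) (i : Fin n) :
    HS (closedBall (0 : E n) ρ) (2 * ρ) (fun x : E n => x i) := by
  refine ⟨fun x hx => (abs_coord_le x i).trans ?_, fun x hx y hy => ?_⟩
  · rw [mem_closedBall, dist_zero_right] at hx
    linarith
  · have hd : dist x y ≤ 2 * ρ := by
      have := dist_triangle_right x y 0
      rw [mem_closedBall] at hx hy
      linarith
    have h2 : dist x y ≤ 2 * ρ * Real.sqrt (dist x y) := by
      have h3 : Real.sqrt (dist x y) ≤ 2 * ρ := by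
        rw [Real.sqrt_le_left (by linarith)]
        nlinarith
      have h4 : Real.sqrt (dist x y) * Real.sqrt (dist x y) = dist x y :=
        Real.mul_self_sqrt dist_nonneg
      nlinarith [Real.sqrt_nonneg (dist x y)]
    have h1 : |x i - y i| ≤ dist x y := by
      have := abs_coord_le (x - y) i
      rw [dist_eq_norm]
      simpa using this
    exact h1.trans h2

theorem H0_scale_big {f : E n → ℝ} {D R a : ℝ} (h : H0 D f) (hR : 1 ≤ R) (ha : |a| ≤ 1) :
    H0 D (fun x => a * f (R⁻¹ • (x - 0))) := by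
  have hD := H0_nonneg h
  have hR0 : 0 < R := by linarith
  have hRi : R⁻¹ ≤ 1 := inv_le_one_of_one_le₀ hR
  have hRi0 : 0 ≤ R⁻¹ := by positivity
  refine ⟨fun x => ?_, fun x y => ?_⟩
  · rw [abs_mul]
    calc |a| * |f (R⁻¹ • (x - 0))| ≤ 1 * D := mul_le_mul ha (h.1 _) (abs_nonneg _) (by norm_num)
      _ = D := one_mul D
  · have e : a * f (R⁻¹ • (x - 0)) - a * f (R⁻¹ • (y - 0)) =
        a * (f (R⁻¹ • (x - 0)) - f (R⁻¹ • (y - 0))) := by ring
    rw [e, abs_mul]
    have h3 := h.2 (R⁻¹ • (x - 0)) (R⁻¹ • (y - 0))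
    have h4 : dist (R⁻¹ • (x - 0)) (R⁻¹ • (y - 0)) ≤ dist x y := by
      rw [dist_smul₀, dist_sub_right, Real.norm_of_nonneg hRi0]
      exact mul_le_of_le_one_left dist_nonneg hRi
    calc |a| * |f (R⁻¹ • (x - 0)) - f (R⁻¹ • (y - 0))|
        ≤ 1 * (D * Real.sqrt (dist (R⁻¹ • (x - 0)) (R⁻¹ • (y - 0)))) :=
          mul_le_mul ha h3 (abs_nonneg _) (by norm_num)
      _ ≤ 1 * (D * Real.sqrt (dist x y)) := by
          rw [one_mul, one_mul]
          exact mul_le_mul_of_nonneg_left (Real.sqrt_le_sqrt h4) hD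
      _ = _ := one_mul _

/-- The far field estimate with explicit data. -/
theorem far_core {κ c C K : ℝ} (hBE : BE0 n κ c C K) (hK : 0 ≤ K) (hc1 : c ≤ 1) (hC1 : 1 ≤ C)
    {T R D ε : ℝ} (hT : 0 ≤ T) (hR : 1 ≤ R) (hε : 0 ≤ ε) (hrs : K * (n * (n * (2 * ε))) ≤ 1 / 2)
    {χ : E n → ℝ} (hχ : ContDiff ℝ 2 χ) (hD0 : H0 D χ) (hD1 : ∀ i, H0 D (pd i χ))
    (hD2 : ∀ i j, H0 D (pd i (pd j χ))) (hone : ∀ x, ‖x‖ ≤ 1 → χ x = 1)
    (hzero : ∀ x, 2 ≤ ‖x‖ → χ x = 0)
    {τ : E n → Mt n} {u : E n → ℝ} {N L M : ℝ}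
    (hτ : ∀ i j, HS (closedBall (0 : E n) (2 * R)) T (fun x => τ x i j))
    (hfar : ∀ i j, HS {x : E n | R ≤ ‖x‖} ε (fun x => τ x i j - (1 : Mt n) i j))
    (hu2 : ContDiff ℝ 2 u) (hu : HS (closedBall (0 : E n) (2 * R)) L u)
    (hu1 : ∀ i, HS (closedBall (0 : E n) (2 * R)) L (pd i u))
    (huu : ∀ i j, H0 M (pd i (pd j u)))
    (hF : H0 N (AK τ κ u)) (i j : Fin n) :
    HS {x : E n | 2 * R < ‖x‖} (2 * (K * (2 * (1 + D) * N + (n * (2 * D * (2 * (4 * R) * L)) +
      n * (n * (2 * D * (2 * T * L) + 2 * D * (2 * T * L) + 2 * D * (2 * T * L)))))))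
      (pd i (pd j u)) := by
  have hR0 : 0 < R := by linarith
  have h00 : (0 : E n) ∈ closedBall (0 : E n) (2 * R) := mem_closedBall_self (by positivity)
  have hL : 0 ≤ L := hu.nonneg h00
  have hM : 0 ≤ M := H0_nonneg (huu i j)
  have hN : 0 ≤ N := H0_nonneg hF
  have hRi : R⁻¹ ≤ 1 := inv_le_one_of_one_le₀ hR
  have hRi0 : 0 ≤ R⁻¹ := by positivity
  have hχ' : Differentiable ℝ χ := hχ.differentiable (by norm_num)
  obtain ⟨ψ, hψ⟩ : ∃ ψ : E n → ℝ, ψ = fun x => χ (R⁻¹ • (x - 0)) := ⟨_, rfl⟩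
  have hψc : ContDiff ℝ 2 ψ := by
    rw [hψ]
    exact hχ.comp ((contDiff_id.sub contDiff_const).const_smul R⁻¹)
  have hψ0 : H0 D ψ := by
    have := H0_scale_big hD0 hR (a := 1) (by rw [abs_one])
    rw [hψ]
    simpa using this
  have hψ1 : ∀ i, H0 D (pd i ψ) := by
    intro i
    rw [hψ, pd_scale hχ']
    exact H0_scale_big (hD1 i) hR (by rw [abs_of_nonneg hRi0]; exact hRi)
  have hψ2 : ∀ i j, H0 D (pd i (pd j ψ)) := by
    intro i j
    rw [hψ, pd_pd_scale hχ]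
    exact H0_scale_big (hD2 i j) hR (by rw [abs_of_nonneg (by positivity)]; nlinarith)
  have hnorm : ∀ x : E n, ‖R⁻¹ • (x - 0)‖ = R⁻¹ * ‖x‖ := by
    intro x
    rw [norm_smul, Real.norm_of_nonneg (by positivity), sub_zero]
  have hψz : ∀ x, x ∉ closedBall (0 : E n) (2 * R) → ψ x = 0 := by
    intro x hx
    rw [mem_closedBall, not_le, dist_zero_right] at hx
    rw [hψ]
    apply hzero
    rw [hnorm, inv_mul_eq_div, le_div_iff₀ hR0]
    exact hx.le
  have hψze : ∀ x, x ∉ closedBall (0 : E n) (2 * R) → ∀ᶠ y in nhds x, ψ y = 0 := by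
    intro x hx
    have ho : IsOpen (closedBall (0 : E n) (2 * R))ᶜ := isClosed_closedBall.isOpen_compl
    filter_upwards [ho.mem_nhds hx] with y hy
    exact hψz y hy
  have hz1 : ∀ i x, x ∉ closedBall (0 : E n) (2 * R) → pd i ψ x = 0 := fun i x hx =>
    pd_eq_zero_of_eventually (hψze x hx) i
  have hz2 : ∀ i j x, x ∉ closedBall (0 : E n) (2 * R) → pd i (pd j ψ) x = 0 :=
    fun i j x hx => pd_pd_eq_zero_of_eventually (hψze x hx) i j
  -- the complementary cut-off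
  obtain ⟨φ, hφ⟩ : ∃ φ : E n → ℝ, φ = fun x => 1 - ψ x := ⟨_, rfl⟩
  have hφc : ContDiff ℝ 2 φ := by
    rw [hφ]
    exact contDiff_const.sub hψc
  have hψd : Differentiable ℝ ψ := hψc.differentiable (by norm_num)
  have hpφ : ∀ i, pd i φ = fun x => - pd i ψ x := by
    intro i
    funext x
    rw [hφ]
    simp only [pd]
    rw [fderiv_const_sub]
    simp
  have hppφ : ∀ i j, pd i (pd j φ) = fun x => - pd i (pd j ψ) x := by
    intro i j
    rw [hpφ, pd_neg']
  have hφ0 : H0 (1 + D) φ := by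
    rw [← HS_univ, hφ]
    apply HS.sub
    · refine ⟨fun x _ => by simp, fun x _ y _ => ?_⟩
      simp only [sub_self, abs_zero]
      positivity
    · exact HS_univ.2 hψ0
  have hφ1 : ∀ i, H0 D (pd i φ) := by
    intro i
    rw [hpφ, ← HS_univ]
    exact (HS_univ.2 (hψ1 i)).neg
  have hφ2 : ∀ i j, H0 D (pd i (pd j φ)) := by
    intro i j
    rw [hppφ, ← HS_univ]
    exact (HS_univ.2 (hψ2 i j)).neg
  have hφz1 : ∀ i x, x ∉ closedBall (0 : E n) (2 * R) → pd i φ x = 0 := by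
    intro i x hx
    rw [congrFun (hpφ i) x, hz1 i x hx, neg_zero]
  have hφz2 : ∀ i j x, x ∉ closedBall (0 : E n) (2 * R) → pd i (pd j φ) x = 0 := by
    intro i j x hx
    rw [congrFun (hppφ i j) x, hz2 i j x hx, neg_zero]
  have hvz : ∀ i j x, x ∉ {x : E n | R ≤ ‖x‖} → pd i (pd j (fun x => φ x * u x)) x = 0 := by
    intro i j x hx
    rw [mem_setOf_eq, not_le] at hx
    apply pd_pd_eq_zero_of_eventually (a := 0)
    have : x ∈ ball (0 : E n) R := by rw [mem_ball, dist_zero_right]; exact hx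
    filter_upwards [isOpen_ball.mem_nhds this] with y hy
    rw [mem_ball, dist_zero_right] at hy
    have : ψ y = 1 := by
      rw [hψ]
      apply hone
      rw [hnorm, inv_mul_eq_div, div_le_iff₀ hR0]
      linarith
    rw [hφ]
    simp only [this, sub_self, zero_mul]
  have hex : ∃ M, ∀ i j, H0 M (pd i (pd j (fun x => φ x * u x))) := by
    refine ⟨M + (2 * D * M + (2 * D * L + 2 * D * L + 2 * D * L)), fun i j => ?_⟩
    have h1 := hex_of hψc hu2 hψ0 hψ1 hψ2 hψz hz1 hz2 hL hM hu hu1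
      (fun i j => HS.of_H0 (huu i j)) i j
    rw [← HS_univ] at h1 ⊢
    refine ((HS_univ.2 (huu i j)).sub h1).congr ?_
    intro x _
    rw [pd_pd_mul hφc hu2, pd_pd_mul hψc hu2, hppφ, hpφ, hpφ, hφ]
    ring
  have key := frz hBE hK (Matrix.isSymm_one) (LB_one hc1) (UB_one hC1) (τ := τ) (χ := φ)
    (u := u) (S := closedBall (0 : E n) (2 * R))
    (D := D) (T := T) (L := L) (ρ := 4 * R) (N := 2 * (1 + D) * N)
    (θ := 2 * ε) hφc hu2 hφ1 hφ2 hφz1 hφz2 hT hL (by positivity) hτ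
    (fun i => (HS_coord' (by linarith) i).mono (by linarith)) hu hu1 ?_ (by positivity) ?_ hrs
    hex i j
  · refine (HS.of_H0 key).congr ?_
    intro x hx
    have hx' : x ∉ closedBall (0 : E n) (2 * R) := by
      rw [mem_closedBall, dist_zero_right, not_le]
      exact hx
    rw [pd_pd_mul hφc hu2, hφz1 i x hx', hφz1 j x hx', hφz2 i j x hx', hφ]
    simp only [hψz x hx']
    ring
  · rw [← HS_univ]
    exact (HS_univ.2 hφ0).mul (HS_univ.2 hF)
  · intro A hA i j x y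
    have hA0 : 0 ≤ A := H0_nonneg (hA i j)
    have := seminorm_mul_small (a := fun x => τ x i j - (1 : Mt n) i j)
      (b := pd i (pd j (fun x => φ x * u x))) (hfar i j).1 (hfar i j).2 (hvz i j)
      (hA i j).1 (hA i j).2 hε hε hA0 x y
    refine this.trans (le_of_eq ?_)
    ring

theorem exists_eps {K : ℝ} (hK : 0 ≤ K) (n : ℕ) : ∃ ε : ℝ, 0 < ε ∧
    K * (n * (n * (2 * ε))) ≤ 1 / 2 := by
  set Q : ℝ := K * (n * (n * 2)) with hQ
  have hQ0 : 0 ≤ Q := by positivity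
  refine ⟨1 / (2 * (Q + 1)), by positivity, ?_⟩
  have e : K * (n * (n * (2 * (1 / (2 * (Q + 1)))))) = Q * (1 / (2 * (Q + 1))) := by
    rw [hQ]; ring
  rw [e, mul_one_div, div_le_div_iff₀ (by positivity) (by norm_num)]
  linarith

/-- Far field smallness: decay and Lipschitz bound give a small Hoelder constant. -/
theorem far_small {K ε : ℝ} (hK : 0 ≤ K) (hε : 0 < ε) : ∃ R₀ : ℝ, 1 ≤ R₀ ∧ ∀ R, R₀ ≤ R →
    ∀ f : E n → ℝ, (∀ x, |f x| ≤ K / Real.sqrt (1 + ‖x‖)) →
    (∀ x y, |f x - f y| ≤ K * dist x y) → HS {x : E n | R ≤ ‖x‖} ε f := by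
  -- choose `δ` with `K δ ≤ ε` and `2 K² δ... ≤ ε²`
  obtain ⟨δ, hδ0, hδ1, hδ2⟩ : ∃ δ : ℝ, 0 < δ ∧ K * δ ≤ ε ∧ 2 * K * δ * K ≤ ε ^ 2 := by
    refine ⟨min (ε / (K + 1)) (ε ^ 2 / (2 * K * K + 1)), by positivity, ?_, ?_⟩
    · calc K * min (ε / (K + 1)) (ε ^ 2 / (2 * K * K + 1)) ≤ K * (ε / (K + 1)) :=
            mul_le_mul_of_nonneg_left (min_le_left _ _) hK
        _ ≤ ε := by
            rw [mul_div_assoc', div_le_iff₀ (by positivity)]
            nlinarith
    · have h1 : 2 * K * K * min (ε / (K + 1)) (ε ^ 2 / (2 * K * K + 1)) ≤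
          2 * K * K * (ε ^ 2 / (2 * K * K + 1)) :=
        mul_le_mul_of_nonneg_left (min_le_right _ _) (by positivity)
      have h2 : 2 * K * K * (ε ^ 2 / (2 * K * K + 1)) ≤ ε ^ 2 := by
        rw [mul_div_assoc', div_le_iff₀ (by positivity)]
        nlinarith [sq_nonneg ε]
      nlinarith
  refine ⟨max 1 (1 / δ ^ 2), le_max_left _ _, fun R hR f hf hlip => ?_⟩
  have hR1 : 1 / δ ^ 2 ≤ R := (le_max_right _ _).trans hR
  have hsup : ∀ x : E n, R ≤ ‖x‖ → |f x| ≤ K * δ := by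
    intro x hx
    refine (hf x).trans ?_
    rw [div_eq_mul_inv]
    apply mul_le_mul_of_nonneg_left _ hK
    have h3 : 1 / δ ≤ Real.sqrt (1 + ‖x‖) := by
      apply Real.le_sqrt_of_sq_le
      rw [div_pow, one_pow]
      linarith
    calc (Real.sqrt (1 + ‖x‖))⁻¹ ≤ (1 / δ)⁻¹ := inv_anti₀ (by positivity) h3
      _ = δ := by rw [one_div, inv_inv]
  refine ⟨fun x hx => (hsup x hx).trans hδ1, fun x hx y hy => ?_⟩
  have h1 : |f x - f y| ≤ 2 * (K * δ) := by
    have := abs_sub (f x) (f y)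
    have h1 := hsup x hx
    have h2 := hsup y hy
    linarith [abs_sub (f x) (f y)]
  have h2 := hlip x y
  have h3 : |f x - f y| ^ 2 ≤ (ε * Real.sqrt (dist x y)) ^ 2 := by
    rw [mul_pow, Real.sq_sqrt dist_nonneg, sq]
    calc |f x - f y| * |f x - f y| ≤ (2 * (K * δ)) * (K * dist x y) :=
          mul_le_mul h1 h2 (abs_nonneg _) (by positivity)
      _ = (2 * K * δ * K) * dist x y := by ring
      _ ≤ ε ^ 2 * dist x y := mul_le_mul_of_nonneg_right hδ2 dist_nonneg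
  exact (pow_le_pow_iff_left₀ (abs_nonneg _) (by positivity) (by norm_num)).1 h3

/-- Row FAR. -/
theorem row_FAR (n : ℕ) : CM.BE0 n → StCUT n → StFAR n := by
  intro hBE hcut c C K κ hc hκ
  obtain ⟨K₀, hK₀, hB⟩ := hBE (min c 1) (max C 1) κ (lt_min hc one_pos) hκ
  have hB' : CM50.BE0 n κ (min c 1) (max C 1) K₀ := H0_of_bound_core hB
  obtain ⟨χ, D, hD, hχ, -, hone, hzero, hD0, hD1, hD2⟩ := hcut
  have hχ2 : ContDiff ℝ 2 χ := by exact_mod_cast contDiff_infty.1 hχ 2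
  have hK' : 0 ≤ max K 0 := le_max_right _ _
  obtain ⟨ε, hε, hrs⟩ := exists_eps hK₀ n
  obtain ⟨R₀, hR₀, hsm⟩ := far_small (n := n) hK' hε
  -- the cut-off radius is `R₀`, the final radius is `2 R₀`
  set T : ℝ := max K 0 with hT
  set A : ℝ := 2 * (K₀ * (2 * (1 + D) + (n * (16 * D * R₀ * (4 * R₀ * n + 1)) +
    n * (n * (12 * D * T * (4 * R₀ * n + 1)))))) with hA
  have hR0 : 0 < R₀ := by linarith
  refine ⟨2 * R₀, A, by linarith, by positivity, ?_⟩
  intro τ hτ u hu2 hMu N B hN hB0 hF hJ i j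
  obtain ⟨M, hM⟩ := hMu
  have hu1 : Differentiable ℝ u := hu2.differentiable (by norm_num)
  have hsub : closedBall (0 : E n) (2 * R₀) ⊆ closedBall (0 : E n) (2 * (2 * R₀)) :=
    closedBall_subset_closedBall (by linarith)
  have hL := HS_of_pd' hu1 (ρ := 2 * R₀) (B := B) (by linarith) hB0
    (fun x hx => (hJ x (hsub hx)).1) (fun i x hx => (hJ x (hsub hx)).2.1 i)
  have hL1 : ∀ i, HS (closedBall (0 : E n) (2 * R₀)) ((2 * (2 * R₀) * n + 1) * B) (pd i u) :=
    fun i => HS_of_pd' ((contDiff_pd (k := 1) hu2 i).differentiable (by norm_num))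
      (by linarith) hB0
      (fun x hx => (hJ x (hsub hx)).2.1 i) (fun k x hx => (hJ x (hsub hx)).2.2 k i)
  have key := far_core hB' hK₀ (min_le_right _ _) (le_max_right _ _) hK' hR₀ hε.le hrs hχ2
    hD0 hD1 hD2 hone hzero (τ := τ)
    (u := u) (N := N) (L := (2 * (2 * R₀) * n + 1) * B) (M := M)
    (fun i j => (HS.of_H0 (hτ.bd i j)).mono (le_max_left _ _)) ?_ hu2 hL hL1 hM hF i j
  · refine HS.mono (HS.subset key ?_) ?_
    · intro x hx
      rw [mem_setOf_eq] at hx ⊢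
      linarith
    · have b1 : 2 * (1 + D) * N ≤ 2 * (1 + D) * (N + B) := by
        apply mul_le_mul_of_nonneg_left _ (by positivity)
        linarith
      have b2 : 2 * D * (2 * (4 * R₀) * ((2 * (2 * R₀) * n + 1) * B)) ≤
          16 * D * R₀ * (4 * R₀ * n + 1) * (N + B) := by
        have h2 : 0 ≤ 16 * D * R₀ * (4 * R₀ * n + 1) := by positivity
        nlinarith [mul_nonneg h2 hN]
      have b3 : 2 * D * (2 * T * ((2 * (2 * R₀) * n + 1) * B)) +
          2 * D * (2 * T * ((2 * (2 * R₀) * n + 1) * B)) +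
          2 * D * (2 * T * ((2 * (2 * R₀) * n + 1) * B)) ≤
          12 * D * T * (4 * R₀ * n + 1) * (N + B) := by
        have h2 : 0 ≤ 12 * D * T * (4 * R₀ * n + 1) := by positivity
        nlinarith [mul_nonneg h2 hN]
      have b4 : (n : ℝ) * (2 * D * (2 * (4 * R₀) * ((2 * (2 * R₀) * n + 1) * B))) ≤
          n * (16 * D * R₀ * (4 * R₀ * n + 1) * (N + B)) :=
        mul_le_mul_of_nonneg_left b2 (by positivity)
      have b5 : (n : ℝ) * (n * (2 * D * (2 * T * ((2 * (2 * R₀) * n + 1) * B)) +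
          2 * D * (2 * T * ((2 * (2 * R₀) * n + 1) * B)) +
          2 * D * (2 * T * ((2 * (2 * R₀) * n + 1) * B)))) ≤
          n * (n * (12 * D * T * (4 * R₀ * n + 1) * (N + B))) :=
        mul_le_mul_of_nonneg_left (mul_le_mul_of_nonneg_left b3 (by positivity)) (by positivity)
      have b6 := mul_le_mul_of_nonneg_left (add_le_add b1 (add_le_add b4 b5)) hK₀
      have e : A * (N + B) = 2 * (K₀ * (2 * (1 + D) * (N + B) +
          (n * (16 * D * R₀ * (4 * R₀ * n + 1) * (N + B)) +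
          n * (n * (12 * D * T * (4 * R₀ * n + 1) * (N + B)))))) := by
        rw [hA]; ring
      rw [e]
      linarith
  · intro i j
    refine hsm R₀ le_rfl (fun x => τ x i j - (1 : Mt n) i j) ?_ ?_
    · intro x
      refine (hτ.far x i j).trans ?_
      exact div_le_div_of_nonneg_right (le_max_left _ _) (Real.sqrt_nonneg _)
    · intro x y
      have e : τ x i j - (1 : Mt n) i j - (τ y i j - (1 : Mt n) i j) = τ x i j - τ y i j := by
        ring
      rw [e]
      exact (hτ.lip x y i j).trans (mul_le_mul_of_nonneg_right (le_max_left _ _) dist_nonneg)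

end CM50
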