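import Pool.Agent.Helper50.MM.Loc
import Pool.Agent.Helper29.MM.Stmts_B3

/-!
# Project MM, block B3: row LOC
-/

open MeasureTheory Metric Set Filter

namespace CM50

open CM

variable {n : ℕ}

theorem H0_of_bound_core {κ c C K : ℝ} (h : ∀ τ₀ : Mt n, (∀ i j, τ₀ i j = τ₀ j i) → LB c τ₀ →
    UB C τ₀ →
    ∀ w : E n → ℝ, ContDiff ℝ 2 w → (∃ M, ∀ x i j, |pd i (pd j w) x| ≤ M) →
    ∀ N : ℝ, 0 ≤ N →
      (∀ x y, |AK (fun _ => τ₀) κ w x - AK (fun _ => τ₀) κ w y| ≤ N * Real.sqrt (dist x y)) →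
      ∀ i j, H0 (K * N) (pd i (pd j w))) : CM50.BE0 n κ c C K := by
  intro t0 hs hl hU w hw hM N hN hh i j
  refine h t0 (fun i j => (hs.apply i j).symm) hl hU w hw ?_ N hN hh i j
  obtain ⟨M, hM⟩ := hM
  exact ⟨M, fun x i j => (hM i j).1 x⟩

theorem exists_radius {K T : ℝ} (hK : 0 ≤ K) (hT : 0 ≤ T) (n : ℕ) : ∃ r : ℝ, 0 < r ∧ r ≤ 1 ∧
    K * (n * (n * (5 * T * Real.sqrt r))) ≤ 1 / 2 := by
  set Q : ℝ := K * (n * (n * (5 * T))) with hQ
  have hQ0 : 0 ≤ Q := by positivity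
  set s : ℝ := 1 / (2 * (Q + 1)) with hs
  have hs0 : 0 < s := by positivity
  have hs1 : s ≤ 1 := by
    rw [hs, div_le_one (by positivity)]
    linarith
  refine ⟨s * s, by positivity, by nlinarith, ?_⟩
  rw [Real.sqrt_mul_self hs0.le]
  have e : K * (n * (n * (5 * T * s))) = Q * s := by rw [hQ]; ring
  rw [e, hs, mul_one_div, div_le_div_iff₀ (by positivity) (by norm_num)]
  linarith

/-- Row LOC. -/
theorem row_LOC (n : ℕ) : CM.BE0 n → StCUT n → StLOC n := by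
  intro hBE hcut c C K κ hc hκ
  obtain ⟨K₀, hK₀, hB⟩ := hBE c C κ hc hκ
  have hB' : CM50.BE0 n κ c C K₀ := H0_of_bound_core hB
  obtain ⟨χ, D, hD, hχ, -, hone, hzero, hD0, hD1, hD2⟩ := hcut
  have hχ2 : ContDiff ℝ 2 χ := by exact_mod_cast contDiff_infty.1 hχ 2
  have hK' : 0 ≤ max K 0 := le_max_right _ _
  obtain ⟨r, hr, hr1, hrs⟩ := exists_radius hK₀ hK' n
  set D' : ℝ := D * (r⁻¹ * r⁻¹ * r⁻¹) with hD'
  have hD'0 : 0 ≤ D' := by positivity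
  set A : ℝ := 2 * (K₀ * (2 * D' + (n * (8 * D' * (2 * n + 1)) +
    n * (n * (12 * D' * (max K 0) * (2 * n + 1)))))) with hA
  refine ⟨r, A, hr, hr1, by positivity, ?_⟩
  intro τ hτ x₀ u hu2 hMu N B hN hB0 hF hJ i j
  obtain ⟨M, hM⟩ := hMu
  have hu1 : Differentiable ℝ u := hu2.differentiable (by norm_num)
  have hL := HS_of_pd hu1 (x₀ := x₀) (r := r) (B := B) hr1 hB0 (fun x hx => (hJ x hx).1)
    (fun i x hx => (hJ x hx).2.1 i)
  have hL1 : ∀ i, HS (closedBall x₀ (2 * r)) ((2 * n + 1) * B) (pd i u) := fun i =>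
    HS_of_pd ((contDiff_pd (k := 1) hu2 i).differentiable (by norm_num)) hr1 hB0
      (fun x hx => (hJ x hx).2.1 i) (fun k x hx => (hJ x hx).2.2 k i)
  have key := loc_core hB' hK₀ hK' hr hr1 hrs hχ2 hD0 hD1 hD2 hone hzero (τ := τ) (x₀ := x₀)
    (u := u) (N := N) (L := (2 * n + 1) * B) (M := M)
    (Matrix.IsSymm.ext (fun i j => hτ.sym x₀ j i)) (hτ.lo x₀) (hτ.up x₀)
    (fun i j => (HS.of_H0 (hτ.bd i j)).mono (le_max_left _ _)) hu2 hL hL1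
    (fun i j => HS.of_H0 (hM i j)) hF i j
  intro x hx y hy
  refine (key.2 x hx y hy).trans (mul_le_mul_of_nonneg_right ?_ (Real.sqrt_nonneg _))
  rw [← hD']
  have hx0 : 0 ≤ ‖x₀‖ := norm_nonneg _
  have b1 : 2 * D' * N ≤ 2 * D' * ((1 + ‖x₀‖) * (N + B)) := by
    apply mul_le_mul_of_nonneg_left _ (by positivity)
    nlinarith [mul_nonneg hx0 hN, mul_nonneg hx0 hB0]
  have b2 : 2 * D' * (2 * (‖x₀‖ + 2) * ((2 * n + 1) * B)) ≤
      8 * D' * (2 * n + 1) * ((1 + ‖x₀‖) * (N + B)) := by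
    have : (‖x₀‖ + 2) * B ≤ 2 * ((1 + ‖x₀‖) * (N + B)) := by
      nlinarith [mul_nonneg hx0 hN, mul_nonneg hx0 hB0]
    have h2 : 0 ≤ 4 * D' * (2 * n + 1) := by positivity
    nlinarith [mul_le_mul_of_nonneg_left this h2]
  have b3 : 2 * D' * (2 * (max K 0) * ((2 * n + 1) * B)) + 2 * D' * (2 * (max K 0) * ((2 * n + 1) * B))
      + 2 * D' * (2 * (max K 0) * ((2 * n + 1) * B)) ≤
      12 * D' * (max K 0) * (2 * n + 1) * ((1 + ‖x₀‖) * (N + B)) := by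
    have : B ≤ (1 + ‖x₀‖) * (N + B) := by
      nlinarith [mul_nonneg hx0 hN, mul_nonneg hx0 hB0]
    have h2 : 0 ≤ 12 * D' * (max K 0) * (2 * n + 1) := by positivity
    nlinarith [mul_le_mul_of_nonneg_left this h2]
  have b4 : (n : ℝ) * (2 * D' * (2 * (‖x₀‖ + 2) * ((2 * n + 1) * B))) ≤
      n * (8 * D' * (2 * n + 1) * ((1 + ‖x₀‖) * (N + B))) :=
    mul_le_mul_of_nonneg_left b2 (by positivity)
  have b5 : (n : ℝ) * (n * (2 * D' * (2 * (max K 0) * ((2 * n + 1) * B)) +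
      2 * D' * (2 * (max K 0) * ((2 * n + 1) * B))
      + 2 * D' * (2 * (max K 0) * ((2 * n + 1) * B)))) ≤
      n * (n * (12 * D' * (max K 0) * (2 * n + 1) * ((1 + ‖x₀‖) * (N + B)))) :=
    mul_le_mul_of_nonneg_left (mul_le_mul_of_nonneg_left b3 (by positivity)) (by positivity)
  have b6 := mul_le_mul_of_nonneg_left (add_le_add b1 (add_le_add b4 b5)) hK₀
  have e : A * (1 + ‖x₀‖) * (N + B) = 2 * (K₀ * (2 * D' * ((1 + ‖x₀‖) * (N + B)) +
      (n * (8 * D' * (2 * n + 1) * ((1 + ‖x₀‖) * (N + B))) +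
      n * (n * (12 * D' * (max K 0) * (2 * n + 1) * ((1 + ‖x₀‖) * (N + B))))))) := by
    rw [hA]; ring
  rw [e]
  linarith

end CM50
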