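import Pool.Agent.Helper50.MM.HS

/-!
# Project MM, block B3: the freezing step (general form)
-/

open MeasureTheory Metric Set
open CM

namespace CM50

variable {n : ℕ}

/-- The constant-coefficient estimate, uniform over all symmetric matrices in `[c, C]`. -/
def BE0 (n : ℕ) (κ c C K : ℝ) : Prop :=
  ∀ t0 : Mt n, t0.IsSymm → LB c t0 → UB C t0 → ∀ w : E n → ℝ, ContDiff ℝ 2 w →
    (∃ M, ∀ i j, H0 M (pd i (pd j w))) → ∀ N : ℝ, 0 ≤ N →
    (∀ x y, |AK (fun _ => t0) κ w x - AK (fun _ => t0) κ w y| ≤ N * Real.sqrt (dist x y)) →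
    ∀ i j, H0 (K * N) (pd i (pd j w))

theorem pd_mul {f g : E n → ℝ} (hf : Differentiable ℝ f) (hg : Differentiable ℝ g) (i : Fin n) :
    pd i (fun x => f x * g x) = fun x => f x * pd i g x + pd i f x * g x := by
  funext x
  simp only [pd]
  rw [show (fun x => f x * g x) = f * g from rfl, fderiv_mul (hf x) (hg x)]
  simp
  ring

theorem pd_add {f g : E n → ℝ} (hf : Differentiable ℝ f) (hg : Differentiable ℝ g) (i : Fin n) :
    pd i (fun x => f x + g x) = fun x => pd i f x + pd i g x := by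
  funext x
  simp only [pd]
  rw [show (fun x => f x + g x) = f + g from rfl, fderiv_add (hf x) (hg x)]
  simp

theorem contDiff_pd {k : ℕ} {f : E n → ℝ} (hf : ContDiff ℝ (k + 1 : ℕ) f) (i : Fin n) :
    ContDiff ℝ k (pd i f) := by
  have h1 : ContDiff ℝ k (fderiv ℝ f) := by
    apply hf.fderiv_right
    norm_cast
  exact h1.clm_apply contDiff_const

theorem pd_pd_mul {f g : E n → ℝ} (hf : ContDiff ℝ 2 f) (hg : ContDiff ℝ 2 g) (i j : Fin n)
    (x : E n) :
    pd i (pd j (fun x => f x * g x)) x = f x * pd i (pd j g) x +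
      (pd i f x * pd j g x + pd j f x * pd i g x + pd i (pd j f) x * g x) := by
  have hf1 : Differentiable ℝ f := hf.differentiable (by norm_num)
  have hg1 : Differentiable ℝ g := hg.differentiable (by norm_num)
  have hf2 : Differentiable ℝ (pd j f) :=
    (contDiff_pd (k := 1) hf j).differentiable (by norm_num)
  have hg2 : Differentiable ℝ (pd j g) :=
    (contDiff_pd (k := 1) hg j).differentiable (by norm_num)
  rw [pd_mul hf1 hg1 j, pd_add (f := fun x => f x * pd j g x) (g := fun x => pd j f x * g x)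
    (hf1.mul hg2) (hf2.mul hg1), pd_mul hf1 hg2, pd_mul hf2 hg1]
  ring

theorem eul_mul {f g : E n → ℝ} (hf : Differentiable ℝ f) (hg : Differentiable ℝ g) (x : E n) :
    eul (fun x => f x * g x) x = f x * eul g x + g x * eul f x := by
  simp only [eul]
  rw [show (fun x => f x * g x) = f * g from rfl, fderiv_mul (hf x) (hg x)]
  simp

theorem sum_single (x : E n) : x = ∑ i, x i • EuclideanSpace.single i (1 : ℝ) := by
  ext j
  simp [Finset.sum_apply, Pi.single_apply]

theorem eul_eq_sum (f : E n → ℝ) (x : E n) : eul f x = ∑ i, x i * pd i f x := by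
  simp only [eul, pd]
  conv_lhs => rw [sum_single x]
  rw [map_sum]
  apply Finset.sum_congr rfl
  intro i _
  rw [map_smul, smul_eq_mul]
  rw [← sum_single x]

theorem H0.hs {K : ℝ} {f : E n → ℝ} (h : H0 K f) : HS univ K f := HS_univ.2 h

/-- The commutator term. -/
noncomputable def Gf (τ : E n → Mt n) (χ u : E n → ℝ) (x : E n) : ℝ :=
  (∑ i, x i * u x * pd i χ x) -
    ∑ i, ∑ j, (pd i χ x * (τ x i j * pd j u x) + pd j χ x * (τ x i j * pd i u x) +
      pd i (pd j χ) x * (τ x i j * u x))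

theorem AK_frozen (τ : E n → Mt n) (t0 : Mt n) (κ : ℝ) {χ u : E n → ℝ} (hχ : ContDiff ℝ 2 χ)
    (hu : ContDiff ℝ 2 u) (x : E n) :
    AK (fun _ => t0) κ (fun x => χ x * u x) x = χ x * AK τ κ u x + Gf τ χ u x +
      ∑ i, ∑ j, (τ x i j - t0 i j) * pd i (pd j (fun x => χ x * u x)) x := by
  have hχ1 : Differentiable ℝ χ := hχ.differentiable (by norm_num)
  have hu1 : Differentiable ℝ u := hu.differentiable (by norm_num)
  obtain ⟨g, hg⟩ : ∃ g : Fin n → Fin n → ℝ, ∀ i j, g i j =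
      pd i χ x * (τ x i j * pd j u x) + pd j χ x * (τ x i j * pd i u x) +
      pd i (pd j χ) x * (τ x i j * u x) := ⟨_, fun _ _ => rfl⟩
  have e1 : ∀ i j, (τ x i j - t0 i j) * pd i (pd j (fun x => χ x * u x)) x =
      χ x * (τ x i j * pd i (pd j u) x) + g i j -
      t0 i j * pd i (pd j (fun x => χ x * u x)) x := by
    intro i j
    rw [pd_pd_mul hχ hu, hg]
    ring
  have e4 : Gf τ χ u x = u x * eul χ x - ∑ i, ∑ j, g i j := by
    have e2 : ∑ i, x i * u x * pd i χ x = u x * eul χ x := by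
      rw [eul_eq_sum, Finset.mul_sum]
      apply Finset.sum_congr rfl
      intro i _
      ring
    simp only [Gf, hg, e2]
  have e5 : ∑ i, ∑ j, (τ x i j - t0 i j) * pd i (pd j (fun x => χ x * u x)) x =
      χ x * (∑ i, ∑ j, τ x i j * pd i (pd j u) x) + (∑ i, ∑ j, g i j) -
      ∑ i, ∑ j, t0 i j * pd i (pd j (fun x => χ x * u x)) x := by
    simp only [e1, Finset.sum_sub_distrib, Finset.sum_add_distrib, ← Finset.mul_sum]
  rw [e5, e4]
  simp only [AK, LL, tr2, hess, Matrix.of_apply, eul_mul hχ1 hu1]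
  ring

theorem Gf_H0 {τ : E n → Mt n} {χ u : E n → ℝ} {S : Set (E n)} {D T L ρ : ℝ}
    (hχ1 : ∀ i, H0 D (pd i χ)) (hχ2 : ∀ i j, H0 D (pd i (pd j χ)))
    (hz1 : ∀ i x, x ∉ S → pd i χ x = 0) (hz2 : ∀ i j x, x ∉ S → pd i (pd j χ) x = 0)
    (hT : 0 ≤ T) (hL : 0 ≤ L) (hρ : 0 ≤ ρ)
    (hτ : ∀ i j, HS S T (fun x => τ x i j)) (hx : ∀ i, HS S ρ (fun x : E n => x i))
    (hu : HS S L u) (hu1 : ∀ i, HS S L (pd i u)) :
    H0 (n * (2 * D * (2 * ρ * L)) + n * (n * (2 * D * (2 * T * L) + 2 * D * (2 * T * L) +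
      2 * D * (2 * T * L)))) (Gf τ χ u) := by
  rw [← HS_univ]
  apply HS.sub
  · have h : ∀ i, HS univ (2 * D * (2 * ρ * L)) (fun x => pd i χ x * (x i * u x)) := fun i =>
      HS_univ.2 (HS.ext_mul (hχ1 i) (hz1 i) ((hx i).mul hu) (by positivity))
    have := HS.sum_fin h
    refine this.congr ?_
    intro x _
    apply Finset.sum_congr rfl
    intro i _
    ring
  · apply HS.sum_fin
    intro i
    apply HS.sum_fin
    intro j
    apply HS.add
    · apply HS.add
      · exact HS_univ.2 (HS.ext_mul (hχ1 i) (hz1 i) ((hτ i j).mul (hu1 j)) (by positivity))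
      · exact HS_univ.2 (HS.ext_mul (hχ1 j) (hz1 j) ((hτ i j).mul (hu1 i)) (by positivity))
    · exact HS_univ.2 (HS.ext_mul (hχ2 i j) (hz2 i j) ((hτ i j).mul hu) (by positivity))

/-- The general freezing step. -/
theorem frz {κ c C K : ℝ} (hBE : BE0 n κ c C K) (hK : 0 ≤ K) {t0 : Mt n} (hs : t0.IsSymm)
    (hl : LB c t0) (hU : UB C t0) {τ : E n → Mt n} {χ u : E n → ℝ} {S : Set (E n)}
    {D T L ρ N θ : ℝ} (hχ : ContDiff ℝ 2 χ) (hu2 : ContDiff ℝ 2 u)
    (hχ1 : ∀ i, H0 D (pd i χ)) (hχ2 : ∀ i j, H0 D (pd i (pd j χ)))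
    (hz1 : ∀ i x, x ∉ S → pd i χ x = 0) (hz2 : ∀ i j x, x ∉ S → pd i (pd j χ) x = 0)
    (hT : 0 ≤ T) (hL : 0 ≤ L) (hρ : 0 ≤ ρ)
    (hτ : ∀ i j, HS S T (fun x => τ x i j)) (hx : ∀ i, HS S ρ (fun x : E n => x i))
    (hu : HS S L u) (hu1 : ∀ i, HS S L (pd i u))
    (hF : H0 N (fun x => χ x * AK τ κ u x)) (hθ : 0 ≤ θ)
    (hsmall : ∀ A, (∀ i j, H0 A (pd i (pd j (fun x => χ x * u x)))) → ∀ i j x y,
      |(τ x i j - t0 i j) * pd i (pd j (fun x => χ x * u x)) x -
        (τ y i j - t0 i j) * pd i (pd j (fun x => χ x * u x)) y| ≤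
        θ * A * Real.sqrt (dist x y))
    (hKθ : K * (n * (n * θ)) ≤ 1 / 2)
    (hex : ∃ M, ∀ i j, H0 M (pd i (pd j (fun x => χ x * u x)))) (i j : Fin n) :
    H0 (2 * (K * (N + (n * (2 * D * (2 * ρ * L)) + n * (n * (2 * D * (2 * T * L) +
      2 * D * (2 * T * L) + 2 * D * (2 * T * L))))))) (pd i (pd j (fun x => χ x * u x))) := by
  set G : ℝ := (n * (2 * D * (2 * ρ * L)) + n * (n * (2 * D * (2 * T * L) +
      2 * D * (2 * T * L) + 2 * D * (2 * T * L)))) with hG
  have hG0 := Gf_H0 hχ1 hχ2 hz1 hz2 hT hL hρ hτ hx hu hu1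
  rw [← hG] at hG0
  have hv : ContDiff ℝ 2 (fun x => χ x * u x) := hχ.mul hu2
  have hGn : 0 ≤ G := H0_nonneg hG0
  have hN : 0 ≤ N := H0_nonneg hF
  refine absorb (f := fun p : Fin n × Fin n => pd p.1 (pd p.2 (fun x => χ x * u x)))
    (B := K * (N + G)) ?_ ?_ (i, j)
  · obtain ⟨M, hM⟩ := hex
    exact ⟨M, fun p => hM p.1 p.2⟩
  · intro A hA
    have hA' : ∀ i j, H0 A (pd i (pd j (fun x => χ x * u x))) := fun i j => hA (i, j)
    intro p
    have hA0 : 0 ≤ A := H0_nonneg (hA p)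
    have h1 := hBE t0 hs hl hU (fun x => χ x * u x) hv ⟨A, hA'⟩ (N + G + n * (n * (θ * A)))
      (by positivity) ?_ p.1 p.2
    · rw [← HS_univ] at h1 ⊢
      refine h1.mono ?_
      have : K * (n * (n * θ)) * A ≤ 1 / 2 * A := mul_le_mul_of_nonneg_right hKθ hA0
      nlinarith
    · intro x y
      rw [AK_frozen τ t0 κ hχ hu2 x, AK_frozen τ t0 κ hχ hu2 y]
      have a1 := hF.2 x y
      have a2 := hG0.2 x y
      have a3 : |(∑ i, ∑ j, (τ x i j - t0 i j) * pd i (pd j (fun x => χ x * u x)) x) -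
          ∑ i, ∑ j, (τ y i j - t0 i j) * pd i (pd j (fun x => χ x * u x)) y| ≤
          n * (n * (θ * A)) * Real.sqrt (dist x y) := by
        rw [← Finset.sum_sub_distrib]
        refine (Finset.abs_sum_le_sum_abs _ _).trans ?_
        refine (Finset.sum_le_card_nsmul _ _ (n * (θ * A) * Real.sqrt (dist x y)) ?_).trans ?_
        · intro i _
          rw [← Finset.sum_sub_distrib]
          refine (Finset.abs_sum_le_sum_abs _ _).trans ?_
          refine (Finset.sum_le_card_nsmul _ _ (θ * A * Real.sqrt (dist x y)) ?_).trans ?_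
          · intro j _
            exact hsmall A hA' i j x y
          · simp only [Finset.card_univ, Fintype.card_fin, nsmul_eq_mul]
            exact le_of_eq (by ring)
        · simp only [Finset.card_univ, Fintype.card_fin, nsmul_eq_mul]
          exact le_of_eq (by ring)
      have e : ∀ a b c a' b' c' : ℝ, a + b + c - (a' + b' + c') = (a - a') + (b - b') + (c - c') := by
        intros; ring
      rw [e]
      refine (abs_add_le _ _).trans ?_
      have a4 := abs_add_le (χ x * AK τ κ u x - χ y * AK τ κ u y) (Gf τ χ u x - Gf τ χ u y)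
      have e2 : (N + G + n * (n * (θ * A))) * Real.sqrt (dist x y) =
        N * Real.sqrt (dist x y) + G * Real.sqrt (dist x y) +
        n * (n * (θ * A)) * Real.sqrt (dist x y) := by ring
      rw [e2]
      linarith

end CM50
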