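import Pool.Agent.Helper44.CM.Defs

/-!
# Project MM, block B3: local version of the class `H0`
-/

open MeasureTheory Metric Set
open CM

namespace CM50

variable {n : ℕ}

/-- Local version of `H0`. -/
def HS (S : Set (E n)) (K : ℝ) (f : E n → ℝ) : Prop :=
  (∀ x ∈ S, |f x| ≤ K) ∧ ∀ x ∈ S, ∀ y ∈ S, |f x - f y| ≤ K * Real.sqrt (dist x y)

theorem HS_univ {K : ℝ} {f : E n → ℝ} : HS univ K f ↔ H0 K f := by
  constructor
  · intro h
    exact ⟨fun x => h.1 x (mem_univ x), fun x y => h.2 x (mem_univ x) y (mem_univ y)⟩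
  · intro h
    exact ⟨fun x _ => h.1 x, fun x _ y _ => h.2 x y⟩

theorem HS.of_H0 {S : Set (E n)} {K : ℝ} {f : E n → ℝ} (h : H0 K f) : HS S K f :=
  ⟨fun x _ => h.1 x, fun x _ y _ => h.2 x y⟩

theorem HS.subset {S T : Set (E n)} {K : ℝ} {f : E n → ℝ} (h : HS T K f) (hST : S ⊆ T) :
    HS S K f :=
  ⟨fun x hx => h.1 x (hST hx), fun x hx y hy => h.2 x (hST hx) y (hST hy)⟩

theorem HS.congr {S : Set (E n)} {K : ℝ} {f g : E n → ℝ} (h : HS S K f)
    (hfg : ∀ x ∈ S, g x = f x) : HS S K g :=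
  ⟨fun x hx => by rw [hfg x hx]; exact h.1 x hx,
    fun x hx y hy => by rw [hfg x hx, hfg y hy]; exact h.2 x hx y hy⟩

theorem HS.mono {S : Set (E n)} {K L : ℝ} {f : E n → ℝ} (h : HS S K f) (hKL : K ≤ L) :
    HS S L f :=
  ⟨fun x hx => (h.1 x hx).trans hKL, fun x hx y hy => (h.2 x hx y hy).trans
    (mul_le_mul_of_nonneg_right hKL (Real.sqrt_nonneg _))⟩

theorem HS.nonneg {S : Set (E n)} {K : ℝ} {f : E n → ℝ} (h : HS S K f) {x : E n} (hx : x ∈ S) :
    0 ≤ K := (abs_nonneg _).trans (h.1 x hx)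

theorem H0_nonneg {K : ℝ} {f : E n → ℝ} (h : H0 K f) : 0 ≤ K :=
  (abs_nonneg _).trans (h.1 0)

theorem HS.add {S : Set (E n)} {K L : ℝ} {f g : E n → ℝ} (hf : HS S K f) (hg : HS S L g) :
    HS S (K + L) (fun x => f x + g x) := by
  refine ⟨fun x hx => (abs_add_le _ _).trans (add_le_add (hf.1 x hx) (hg.1 x hx)), ?_⟩
  intro x hx y hy
  have h1 := hf.2 x hx y hy
  have h2 := hg.2 x hx y hy
  have e : f x + g x - (f y + g y) = (f x - f y) + (g x - g y) := by ring
  rw [e, add_mul]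
  exact (abs_add_le _ _).trans (add_le_add h1 h2)

theorem HS.neg {S : Set (E n)} {K : ℝ} {f : E n → ℝ} (hf : HS S K f) :
    HS S K (fun x => - f x) := by
  refine ⟨fun x hx => by rw [abs_neg]; exact hf.1 x hx, ?_⟩
  intro x hx y hy
  have h1 := hf.2 x hx y hy
  have e : - f x - (- f y) = -(f x - f y) := by ring
  rw [e, abs_neg]
  exact h1

theorem HS.sub {S : Set (E n)} {K L : ℝ} {f g : E n → ℝ} (hf : HS S K f) (hg : HS S L g) :
    HS S (K + L) (fun x => f x - g x) := by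
  have := hf.add hg.neg
  simpa only [sub_eq_add_neg] using this

theorem HS.mul {S : Set (E n)} {K L : ℝ} {f g : E n → ℝ} (hf : HS S K f) (hg : HS S L g) :
    HS S (2 * K * L) (fun x => f x * g x) := by
  refine ⟨fun x hx => ?_, ?_⟩
  · have hK := hf.nonneg hx
    have hL := hg.nonneg hx
    rw [abs_mul]
    have := mul_le_mul (hf.1 x hx) (hg.1 x hx) (abs_nonneg _) hK
    nlinarith [mul_nonneg hK hL]
  · intro x hx y hy
    have hK := hf.nonneg hx
    have hL := hg.nonneg hx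
    have e : f x * g x - f y * g y = f x * (g x - g y) + (f x - f y) * g y := by ring
    rw [e]
    refine (abs_add_le _ _).trans ?_
    rw [abs_mul, abs_mul]
    have h1 := mul_le_mul (hf.1 x hx) (hg.2 x hx y hy) (abs_nonneg _) hK
    have h2 := mul_le_mul (hf.2 x hx y hy) (hg.1 y hy) (abs_nonneg _)
      (mul_nonneg hK (Real.sqrt_nonneg _))
    nlinarith [h1, h2]

theorem HS.const_mul {S : Set (E n)} {K : ℝ} {f : E n → ℝ} (hf : HS S K f) (a : ℝ) :
    HS S (|a| * K) (fun x => a * f x) := by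
  refine ⟨fun x hx => ?_, ?_⟩
  · rw [abs_mul]
    exact mul_le_mul_of_nonneg_left (hf.1 x hx) (abs_nonneg _)
  · intro x hx y hy
    have e : a * f x - a * f y = a * (f x - f y) := by ring
    rw [e, abs_mul, mul_assoc]
    exact mul_le_mul_of_nonneg_left (hf.2 x hx y hy) (abs_nonneg _)

theorem HS.sum {S : Set (E n)} {ι : Type*} (s : Finset ι) {K : ℝ} {f : ι → E n → ℝ}
    (hf : ∀ i ∈ s, HS S K (f i)) : HS S (s.card * K) (fun x => ∑ i ∈ s, f i x) := by
  refine ⟨fun x hx => ?_, ?_⟩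
  · refine (Finset.abs_sum_le_sum_abs _ _).trans ?_
    refine (Finset.sum_le_card_nsmul s _ K (fun i hi => (hf i hi).1 x hx)).trans ?_
    simp
  · intro x hx y hy
    rw [← Finset.sum_sub_distrib]
    refine (Finset.abs_sum_le_sum_abs _ _).trans ?_
    refine (Finset.sum_le_card_nsmul s _ (K * Real.sqrt (dist x y))
      (fun i hi => (hf i hi).2 x hx y hy)).trans ?_
    simp only [nsmul_eq_mul]
    rw [mul_assoc]

theorem HS.sum_fin {S : Set (E n)} {K : ℝ} {f : Fin n → E n → ℝ}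
    (hf : ∀ i, HS S K (f i)) : HS S (n * K) (fun x => ∑ i, f i x) := by
  have := HS.sum (Finset.univ : Finset (Fin n)) (fun i _ => hf i)
  simpa using this

/-- A global function which vanishes off `S` times a function controlled on `S` only. -/
theorem HS.ext_mul {S : Set (E n)} {K L : ℝ} {f g : E n → ℝ} (hf : H0 K f)
    (hf0 : ∀ x, x ∉ S → f x = 0) (hg : HS S L g) (hL : 0 ≤ L) :
    H0 (2 * K * L) (fun x => f x * g x) := by
  have hK := H0_nonneg hf
  have hfS : HS S K f := HS.of_H0 hf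
  have hm := hfS.mul hg
  refine ⟨fun x => ?_, ?_⟩
  · by_cases hx : x ∈ S
    · exact hm.1 x hx
    · show |f x * g x| ≤ 2 * K * L
      rw [hf0 x hx, zero_mul, abs_zero]
      positivity
  · have key : ∀ x y, x ∈ S → y ∉ S → |f x * g x - f y * g y| ≤
        2 * K * L * Real.sqrt (dist x y) := by
      intro x y hx hy
      rw [hf0 y hy]
      have h1 := hf.2 x y
      rw [hf0 y hy, sub_zero] at h1
      rw [zero_mul, sub_zero, abs_mul]
      have h2 := mul_le_mul h1 (hg.1 x hx) (abs_nonneg _)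
        (mul_nonneg hK (Real.sqrt_nonneg _))
      have h3 : 0 ≤ K * L * Real.sqrt (dist x y) :=
        mul_nonneg (mul_nonneg hK hL) (Real.sqrt_nonneg _)
      nlinarith
    intro x y
    by_cases hx : x ∈ S
    · by_cases hy : y ∈ S
      · exact hm.2 x hx y hy
      · exact key x y hx hy
    · by_cases hy : y ∈ S
      · rw [abs_sub_comm, dist_comm]
        exact key y x hy hx
      · show |f x * g x - f y * g y| ≤ 2 * K * L * Real.sqrt (dist x y)
        rw [hf0 x hx, hf0 y hy, zero_mul, zero_mul, sub_zero, abs_zero]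
        positivity

/-- Hoelder seminorm of a product `a * b`, where `b` vanishes off `S`, `a` is small on `S`. -/
theorem seminorm_mul_small {S : Set (E n)} {A B D s : ℝ} {a b : E n → ℝ}
    (ha : ∀ x ∈ S, |a x| ≤ s) (ha2 : ∀ x ∈ S, ∀ y ∈ S, |a x - a y| ≤ A * Real.sqrt (dist x y))
    (hb0 : ∀ x, x ∉ S → b x = 0) (hb1 : ∀ x, |b x| ≤ D)
    (hb : ∀ x y, |b x - b y| ≤ B * Real.sqrt (dist x y)) (hs : 0 ≤ s) (hA : 0 ≤ A) (hB : 0 ≤ B)
    (x y : E n) :
    |a x * b x - a y * b y| ≤ (s * B + A * D) * Real.sqrt (dist x y) := by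
  have hD : 0 ≤ D := (abs_nonneg _).trans (hb1 0)
  have key : ∀ x y, x ∈ S → y ∉ S → |a x * b x - a y * b y| ≤
      (s * B + A * D) * Real.sqrt (dist x y) := by
    intro x y hx hy
    rw [hb0 y hy, mul_zero, sub_zero, abs_mul]
    have h1 := hb x y
    rw [hb0 y hy, sub_zero] at h1
    have h2 := mul_le_mul (ha x hx) h1 (abs_nonneg _) hs
    have h3 : 0 ≤ A * D * Real.sqrt (dist x y) :=
      mul_nonneg (mul_nonneg hA hD) (Real.sqrt_nonneg _)
    nlinarith
  by_cases hx : x ∈ S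
  · by_cases hy : y ∈ S
    · have e : a x * b x - a y * b y = a x * (b x - b y) + (a x - a y) * b y := by ring
      rw [e]
      refine (abs_add_le _ _).trans ?_
      rw [abs_mul, abs_mul]
      have h1 := mul_le_mul (ha x hx) (hb x y) (abs_nonneg _) hs
      have h2 := mul_le_mul (ha2 x hx y hy) (hb1 y) (abs_nonneg _)
        (mul_nonneg hA (Real.sqrt_nonneg _))
      nlinarith [h1, h2]
    · exact key x y hx hy
  · by_cases hy : y ∈ S
    · rw [abs_sub_comm, dist_comm]
      exact key y x hy hx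
    · rw [hb0 x hx, hb0 y hy]
      simp
      exact mul_nonneg (add_nonneg (mul_nonneg hs hB) (mul_nonneg hA hD)) (Real.sqrt_nonneg _)

/-- Absorption. -/
theorem absorb {ι : Type*} {f : ι → E n → ℝ} {B : ℝ} (h0 : ∃ M, ∀ i, H0 M (f i))
    (h1 : ∀ M, (∀ i, H0 M (f i)) → ∀ i, H0 (M / 2 + B) (f i)) (i : ι) : H0 (2 * B) (f i) := by
  obtain ⟨M, hM⟩ := h0
  have h4 : ∀ k : ℕ, H0 (M / 2 ^ k + 2 * B * (1 - 1 / 2 ^ k)) (f i) := by
    intro k
    induction k generalizing i with
    | zero => simpa using hM i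
    | succ k ih =>
      have := h1 _ (fun j => ih j) i
      have e : (M / 2 ^ k + 2 * B * (1 - 1 / 2 ^ k)) / 2 + B =
          M / 2 ^ (k + 1) + 2 * B * (1 - 1 / 2 ^ (k + 1)) := by
        have : (2 : ℝ) ^ k ≠ 0 := by positivity
        rw [pow_succ]
        field_simp
        ring
      rw [e] at this
      exact this
  have h5 : Filter.Tendsto (fun k : ℕ => M / 2 ^ k + 2 * B * (1 - 1 / 2 ^ k)) Filter.atTop
      (nhds (2 * B)) := by
    have t1 : Filter.Tendsto (fun k : ℕ => ((1 : ℝ) / 2) ^ k) Filter.atTop (nhds 0) :=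
      tendsto_pow_atTop_nhds_zero_of_lt_one (by norm_num) (by norm_num)
    have t2 := (t1.const_mul M).add ((t1.const_sub 1).const_mul (2 * B))
    have e : (fun k : ℕ => M / 2 ^ k + 2 * B * (1 - 1 / 2 ^ k)) =
        fun k : ℕ => M * (1 / 2) ^ k + 2 * B * (1 - (1 / 2) ^ k) := by
      funext k
      rw [one_div_pow]
      ring
    rw [e]
    simpa using t2
  refine ⟨fun x => ?_, fun x y => ?_⟩
  · exact ge_of_tendsto' h5 (fun k => (h4 k).1 x)
  · exact ge_of_tendsto' (h5.mul_const _) (fun k => (h4 k).2 x y)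

end CM50
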