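import Pool.Agent.Helper50.MM.Frz

/-!
# Project MM, block B3: the local estimate (row LOC)
-/

open MeasureTheory Metric Set Filter
open CM

namespace CM50

variable {n : ℕ}

theorem pd_eq_zero_of_eventually {f : E n → ℝ} {x : E n} {a : ℝ}
    (h : ∀ᶠ y in nhds x, f y = a) (i : Fin n) : pd i f x = 0 := by
  have h1 : f =ᶠ[nhds x] fun _ => a := h
  simp only [pd]
  rw [h1.fderiv_eq]
  simp

theorem pd_pd_eq_zero_of_eventually {f : E n → ℝ} {x : E n} {a : ℝ}
    (h : ∀ᶠ y in nhds x, f y = a) (i j : Fin n) : pd i (pd j f) x = 0 := by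
  apply pd_eq_zero_of_eventually (a := 0)
  filter_upwards [eventually_eventually_nhds.2 h] with y hy
  exact pd_eq_zero_of_eventually hy j

theorem continuous_pd {f : E n → ℝ} (hf : ContDiff ℝ 2 f) (i : Fin n) : Continuous (pd i f) :=
  (contDiff_pd (k := 1) hf i).continuous

theorem continuous_pd_pd {f : E n → ℝ} (hf : ContDiff ℝ 2 f) (i j : Fin n) :
    Continuous (pd i (pd j f)) :=
  (contDiff_pd (k := 0) (contDiff_pd (k := 1) hf j) i).continuous

theorem pd_scale {f : E n → ℝ} (hf : Differentiable ℝ f) (s : ℝ) (x₀ : E n) (i : Fin n) :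
    pd i (fun x => f (s • (x - x₀))) = fun x => s * pd i f (s • (x - x₀)) := by
  funext x
  have h1 : HasFDerivAt (fun x : E n => s • (x - x₀)) (s • ContinuousLinearMap.id ℝ (E n)) x :=
    ((hasFDerivAt_id x).sub_const x₀).const_smul s
  have h2 := (hf (s • (x - x₀))).hasFDerivAt.comp x h1
  have h3 : fderiv ℝ (fun x => f (s • (x - x₀))) x =
      (fderiv ℝ f (s • (x - x₀))).comp (s • ContinuousLinearMap.id ℝ (E n)) := h2.fderiv
  simp only [pd]
  rw [h3]
  simp

theorem pd_const_mul {f : E n → ℝ} (hf : Differentiable ℝ f) (a : ℝ) (i : Fin n) :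
    pd i (fun x => a * f x) = fun x => a * pd i f x := by
  funext x
  simp only [pd]
  rw [fderiv_const_mul (hf x)]
  simp

theorem pd_pd_scale {f : E n → ℝ} (hf : ContDiff ℝ 2 f) (s : ℝ) (x₀ : E n) (i j : Fin n) :
    pd i (pd j (fun x => f (s • (x - x₀)))) =
      fun x => s * s * pd i (pd j f) (s • (x - x₀)) := by
  have hf1 : Differentiable ℝ f := hf.differentiable (by norm_num)
  have hf2 : Differentiable ℝ (pd j f) :=
    (contDiff_pd (k := 1) hf j).differentiable (by norm_num)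
  rw [pd_scale hf1]
  have h3 : Differentiable ℝ (fun x => pd j f (s • (x - x₀))) :=
    hf2.comp ((differentiable_id.sub_const x₀).const_smul s)
  rw [pd_const_mul h3, pd_scale hf2]
  funext x
  ring

theorem H0_scale {f : E n → ℝ} {D r a : ℝ} (h : H0 D f) (hr : 0 < r) (hr1 : r ≤ 1)
    (ha : |a| ≤ r⁻¹ * r⁻¹) (x₀ : E n) :
    H0 (D * (r⁻¹ * r⁻¹ * r⁻¹)) (fun x => a * f (r⁻¹ • (x - x₀))) := by
  have hD := H0_nonneg h
  have hri : 1 ≤ r⁻¹ := (one_le_inv₀ hr).2 hr1
  have hri0 : 0 ≤ r⁻¹ := by positivity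
  have h2 : r⁻¹ * r⁻¹ ≤ r⁻¹ * r⁻¹ * r⁻¹ := by nlinarith [mul_nonneg hri0 hri0]
  refine ⟨fun x => ?_, fun x y => ?_⟩
  · rw [abs_mul]
    calc |a| * |f (r⁻¹ • (x - x₀))| ≤ (r⁻¹ * r⁻¹) * D :=
          mul_le_mul ha (h.1 _) (abs_nonneg _) (by positivity)
      _ ≤ (r⁻¹ * r⁻¹ * r⁻¹) * D := mul_le_mul_of_nonneg_right h2 hD
      _ = _ := by ring
  · have e : a * f (r⁻¹ • (x - x₀)) - a * f (r⁻¹ • (y - x₀)) =
        a * (f (r⁻¹ • (x - x₀)) - f (r⁻¹ • (y - x₀))) := by ring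
    rw [e, abs_mul]
    have h3 := h.2 (r⁻¹ • (x - x₀)) (r⁻¹ • (y - x₀))
    have h4 : dist (r⁻¹ • (x - x₀)) (r⁻¹ • (y - x₀)) = r⁻¹ * dist x y := by
      rw [dist_smul₀, dist_sub_right, Real.norm_of_nonneg hri0]
    rw [h4, Real.sqrt_mul hri0] at h3
    have h5 : Real.sqrt r⁻¹ ≤ r⁻¹ := by
      rw [Real.sqrt_le_left hri0]
      nlinarith
    calc |a| * |f (r⁻¹ • (x - x₀)) - f (r⁻¹ • (y - x₀))|
        ≤ (r⁻¹ * r⁻¹) * (D * (Real.sqrt r⁻¹ * Real.sqrt (dist x y))) :=
          mul_le_mul ha h3 (abs_nonneg _) (by positivity)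
      _ ≤ (r⁻¹ * r⁻¹) * (D * (r⁻¹ * Real.sqrt (dist x y))) := by gcongr
      _ = _ := by ring

theorem abs_coord_le (x : E n) (i : Fin n) : |x i| ≤ ‖x‖ := by
  have := PiLp.norm_apply_le x i
  simpa using this

theorem norm_fderiv_le_of_pd {f : E n → ℝ} {B : ℝ} {x : E n}
    (h : ∀ i, |pd i f x| ≤ B) : ‖fderiv ℝ f x‖ ≤ n * B := by
  by_cases hn : n = 0
  · subst hn
    have : fderiv ℝ f x = 0 := by
      ext v
      have : v = 0 := Subsingleton.elim _ _
      simp [this]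
    rw [this]; simp
  · have hB : 0 ≤ B := (abs_nonneg _).trans (h ⟨0, Nat.pos_of_ne_zero hn⟩)
    apply ContinuousLinearMap.opNorm_le_bound _ (by positivity)
    intro v
    have e : fderiv ℝ f x v = ∑ i, v i * pd i f x := by
      conv_lhs => rw [sum_single v]
      rw [map_sum]
      apply Finset.sum_congr rfl
      intro i _
      rw [map_smul, smul_eq_mul]
      rfl
    rw [e, Real.norm_eq_abs]
    refine (Finset.abs_sum_le_sum_abs _ _).trans ?_
    refine (Finset.sum_le_card_nsmul _ _ (‖v‖ * B) ?_).trans ?_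
    · intro i _
      rw [abs_mul]
      exact mul_le_mul (abs_coord_le v i) (h i) (abs_nonneg _) (norm_nonneg _)
    · simp only [Finset.card_univ, Fintype.card_fin, nsmul_eq_mul]
      exact le_of_eq (by ring)

theorem lip_of_pd {f : E n → ℝ} (hf : Differentiable ℝ f) {S : Set (E n)} (hS : Convex ℝ S)
    {B : ℝ} (h : ∀ i, ∀ x ∈ S, |pd i f x| ≤ B) {x y : E n} (hx : x ∈ S) (hy : y ∈ S) :
    |f x - f y| ≤ n * B * dist x y := by
  have := hS.norm_image_sub_le_of_norm_fderiv_le (𝕜 := ℝ) (f := f) (C := n * B)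
    (fun x _ => hf x) (fun x hx => norm_fderiv_le_of_pd (fun i => h i x hx)) hy hx
  rw [Real.norm_eq_abs, ← dist_eq_norm] at this
  exact this

/-- On a ball of radius at most `2`, bounds for a function and its gradient give `HS`. -/
theorem HS_of_pd {f : E n → ℝ} (hf : Differentiable ℝ f) {x₀ : E n} {r B : ℝ} (hr1 : r ≤ 1)
    (hB : 0 ≤ B)
    (h0 : ∀ x ∈ closedBall x₀ (2 * r), |f x| ≤ B)
    (h : ∀ i, ∀ x ∈ closedBall x₀ (2 * r), |pd i f x| ≤ B) :
    HS (closedBall x₀ (2 * r)) ((2 * n + 1) * B) f := by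
  refine ⟨fun x hx => (h0 x hx).trans ?_, fun x hx y hy => ?_⟩
  · have : 0 ≤ (n : ℝ) * B := by positivity
    linarith
  · have h1 := lip_of_pd hf (convex_closedBall x₀ (2 * r)) h hx hy
    have hd : dist x y ≤ 4 := by
      have := dist_triangle_right x y x₀
      rw [mem_closedBall] at hx hy
      linarith
    have h2 : dist x y ≤ 2 * Real.sqrt (dist x y) := by
      have h3 : Real.sqrt (dist x y) ≤ 2 := by
        rw [Real.sqrt_le_left (by norm_num)]
        linarith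
      have h4 : Real.sqrt (dist x y) * Real.sqrt (dist x y) = dist x y :=
        Real.mul_self_sqrt dist_nonneg
      nlinarith [Real.sqrt_nonneg (dist x y)]
    have h5 : (n : ℝ) * B * dist x y ≤ n * B * (2 * Real.sqrt (dist x y)) :=
      mul_le_mul_of_nonneg_left h2 (by positivity)
    have h6 : 0 ≤ B * Real.sqrt (dist x y) := mul_nonneg hB (Real.sqrt_nonneg _)
    nlinarith

theorem HS_coord {x₀ : E n} {r : ℝ} (hr1 : r ≤ 1) (i : Fin n) :
    HS (closedBall x₀ (2 * r)) (‖x₀‖ + 2) (fun x : E n => x i) := by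
  refine ⟨fun x hx => (abs_coord_le x i).trans ?_, fun x hx y hy => ?_⟩
  · rw [mem_closedBall, dist_eq_norm] at hx
    have := norm_le_norm_add_norm_sub' x x₀
    linarith
  · have hd : dist x y ≤ 4 := by
      have := dist_triangle_right x y x₀
      rw [mem_closedBall] at hx hy
      linarith
    have h2 : dist x y ≤ 2 * Real.sqrt (dist x y) := by
      have h3 : Real.sqrt (dist x y) ≤ 2 := by
        rw [Real.sqrt_le_left (by norm_num)]
        linarith
      have h4 : Real.sqrt (dist x y) * Real.sqrt (dist x y) = dist x y :=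
        Real.mul_self_sqrt dist_nonneg
      nlinarith [Real.sqrt_nonneg (dist x y)]
    have h1 : |x i - y i| ≤ dist x y := by
      have := abs_coord_le (x - y) i
      rw [dist_eq_norm]
      simpa using this
    have h6 : 0 ≤ ‖x₀‖ * Real.sqrt (dist x y) := mul_nonneg (norm_nonneg _) (Real.sqrt_nonneg _)
    nlinarith

/-- Second derivatives of `χ u` are `H0`. -/
theorem hex_of {χ u : E n → ℝ} {S : Set (E n)} {D L M : ℝ} (hχ : ContDiff ℝ 2 χ)
    (hu2 : ContDiff ℝ 2 u) (hχ0 : H0 D χ) (hχ1 : ∀ i, H0 D (pd i χ))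
    (hχ2 : ∀ i j, H0 D (pd i (pd j χ))) (hz : ∀ x, x ∉ S → χ x = 0)
    (hz1 : ∀ i x, x ∉ S → pd i χ x = 0) (hz2 : ∀ i j x, x ∉ S → pd i (pd j χ) x = 0)
    (hL : 0 ≤ L) (hM : 0 ≤ M)
    (hu : HS S L u) (hu1 : ∀ i, HS S L (pd i u)) (huu : ∀ i j, HS S M (pd i (pd j u))) :
    ∀ i j, H0 (2 * D * M + (2 * D * L + 2 * D * L + 2 * D * L))
      (pd i (pd j (fun x => χ x * u x))) := by
  intro i j
  rw [← HS_univ]
  have h1 : HS univ (2 * D * M) (fun x => χ x * pd i (pd j u) x) :=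
    HS_univ.2 (HS.ext_mul hχ0 hz (huu i j) hM)
  have h2 : HS univ (2 * D * L) (fun x => pd i χ x * pd j u x) :=
    HS_univ.2 (HS.ext_mul (hχ1 i) (hz1 i) (hu1 j) hL)
  have h3 : HS univ (2 * D * L) (fun x => pd j χ x * pd i u x) :=
    HS_univ.2 (HS.ext_mul (hχ1 j) (hz1 j) (hu1 i) hL)
  have h4 : HS univ (2 * D * L) (fun x => pd i (pd j χ) x * u x) :=
    HS_univ.2 (HS.ext_mul (hχ2 i j) (hz2 i j) hu hL)
  exact (h1.add ((h2.add h3).add h4)).congr (fun x _ => pd_pd_mul hχ hu2 i j x)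

/-- The local estimate with explicit data. `D` is the constant of the unit cut-off. -/
theorem loc_core {κ c C K : ℝ} (hBE : BE0 n κ c C K) (hK : 0 ≤ K) {T r D : ℝ} (hT : 0 ≤ T)
    (hr : 0 < r) (hr1 : r ≤ 1) (hrs : K * (n * (n * (5 * T * Real.sqrt r))) ≤ 1 / 2)
    {χ : E n → ℝ} (hχ : ContDiff ℝ 2 χ) (hD0 : H0 D χ) (hD1 : ∀ i, H0 D (pd i χ))
    (hD2 : ∀ i j, H0 D (pd i (pd j χ))) (hone : ∀ x, ‖x‖ ≤ 1 → χ x = 1)
    (hzero : ∀ x, 2 ≤ ‖x‖ → χ x = 0)
    {τ : E n → Mt n} {x₀ : E n} {u : E n → ℝ} {N L M : ℝ} (hs : (τ x₀).IsSymm)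
    (hl : LB c (τ x₀)) (hU : UB C (τ x₀))
    (hτ : ∀ i j, HS (closedBall x₀ (2 * r)) T (fun x => τ x i j))
    (hu2 : ContDiff ℝ 2 u) (hu : HS (closedBall x₀ (2 * r)) L u)
    (hu1 : ∀ i, HS (closedBall x₀ (2 * r)) L (pd i u))
    (huu : ∀ i j, HS (closedBall x₀ (2 * r)) M (pd i (pd j u)))
    (hF : HS (closedBall x₀ (2 * r)) N (AK τ κ u)) (i j : Fin n) :
    HS (closedBall x₀ r) (2 * (K * (2 * (D * (r⁻¹ * r⁻¹ * r⁻¹)) * N +
      (n * (2 * (D * (r⁻¹ * r⁻¹ * r⁻¹)) * (2 * (‖x₀‖ + 2) * L)) +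
      n * (n * (2 * (D * (r⁻¹ * r⁻¹ * r⁻¹)) * (2 * T * L) +
      2 * (D * (r⁻¹ * r⁻¹ * r⁻¹)) * (2 * T * L) +
      2 * (D * (r⁻¹ * r⁻¹ * r⁻¹)) * (2 * T * L))))))) (pd i (pd j u)) := by
  have hx₀ : x₀ ∈ closedBall x₀ (2 * r) := mem_closedBall_self (by positivity)
  have hL : 0 ≤ L := hu.nonneg hx₀
  have hM : 0 ≤ M := (huu i j).nonneg hx₀
  have hN : 0 ≤ N := hF.nonneg hx₀
  set D' : ℝ := D * (r⁻¹ * r⁻¹ * r⁻¹) with hD'
  have hri : 1 ≤ r⁻¹ := (one_le_inv₀ hr).2 hr1
  have hχ' : Differentiable ℝ χ := hχ.differentiable (by norm_num)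
  obtain ⟨ψ, hψ⟩ : ∃ ψ : E n → ℝ, ψ = fun x => χ (r⁻¹ • (x - x₀)) := ⟨_, rfl⟩
  have hψc : ContDiff ℝ 2 ψ := by
    rw [hψ]
    exact hχ.comp ((contDiff_id.sub contDiff_const).const_smul r⁻¹)
  have hψ0 : H0 D' ψ := by
    have := H0_scale hD0 hr hr1 (a := 1) (by rw [abs_one]; nlinarith) x₀
    rw [hψ]
    simpa using this
  have hψ1 : ∀ i, H0 D' (pd i ψ) := by
    intro i
    rw [hψ, pd_scale hχ']
    exact H0_scale (hD1 i) hr hr1 (by rw [abs_of_nonneg (by positivity)]; nlinarith) x₀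
  have hψ2 : ∀ i j, H0 D' (pd i (pd j ψ)) := by
    intro i j
    rw [hψ, pd_pd_scale hχ]
    exact H0_scale (hD2 i j) hr hr1 (by rw [abs_of_nonneg (by positivity)]) x₀
  have hnorm : ∀ x, ‖r⁻¹ • (x - x₀)‖ = r⁻¹ * dist x x₀ := by
    intro x
    rw [norm_smul, Real.norm_of_nonneg (by positivity), dist_eq_norm]
  have hψz : ∀ x, x ∉ closedBall x₀ (2 * r) → ψ x = 0 := by
    intro x hx
    rw [mem_closedBall, not_le] at hx
    rw [hψ]
    apply hzero
    rw [hnorm, inv_mul_eq_div, le_div_iff₀ hr]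
    exact hx.le
  have hψze : ∀ x, x ∉ closedBall x₀ (2 * r) → ∀ᶠ y in nhds x, ψ y = 0 := by
    intro x hx
    have ho : IsOpen (closedBall x₀ (2 * r))ᶜ := isClosed_closedBall.isOpen_compl
    filter_upwards [ho.mem_nhds hx] with y hy
    exact hψz y hy
  have hz1 : ∀ i x, x ∉ closedBall x₀ (2 * r) → pd i ψ x = 0 := fun i x hx =>
    pd_eq_zero_of_eventually (hψze x hx) i
  have hz2 : ∀ i j x, x ∉ closedBall x₀ (2 * r) → pd i (pd j ψ) x = 0 := fun i j x hx =>
    pd_pd_eq_zero_of_eventually (hψze x hx) i j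
  have hψone : ∀ x, x ∈ closedBall x₀ r → ψ x = 1 := by
    intro x hx
    rw [mem_closedBall] at hx
    rw [hψ]
    apply hone
    rw [hnorm, inv_mul_eq_div, div_le_iff₀ hr]
    linarith
  have hev : ∀ x, x ∈ ball x₀ r → ∀ᶠ y in nhds x, ψ y = 1 := by
    intro x hx
    filter_upwards [isOpen_ball.mem_nhds hx] with y hy
    exact hψone y (ball_subset_closedBall hy)
  have ho1 : ∀ i, ∀ x ∈ closedBall x₀ r, pd i ψ x = 0 := by
    intro i x hx
    have hcl : IsClosed {x | pd i ψ x = 0} := isClosed_eq (continuous_pd hψc i) continuous_const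
    have : closure (ball x₀ r) ⊆ {x | pd i ψ x = 0} :=
      closure_minimal (fun y hy => pd_eq_zero_of_eventually (hev y hy) i) hcl
    rw [closure_ball x₀ hr.ne'] at this
    exact this hx
  have ho2 : ∀ i j, ∀ x ∈ closedBall x₀ r, pd i (pd j ψ) x = 0 := by
    intro i j x hx
    have hcl : IsClosed {x | pd i (pd j ψ) x = 0} :=
      isClosed_eq (continuous_pd_pd hψc i j) continuous_const
    have : closure (ball x₀ r) ⊆ {x | pd i (pd j ψ) x = 0} :=
      closure_minimal (fun y hy => pd_pd_eq_zero_of_eventually (hev y hy) i j) hcl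
    rw [closure_ball x₀ hr.ne'] at this
    exact this hx
  have hvz : ∀ i j x, x ∉ closedBall x₀ (2 * r) → pd i (pd j (fun x => ψ x * u x)) x = 0 := by
    intro i j x hx
    rw [pd_pd_mul hψc hu2, hψz x hx, hz1 i x hx, hz1 j x hx, hz2 i j x hx]
    ring
  have hex := hex_of hψc hu2 hψ0 hψ1 hψ2 hψz hz1 hz2 hL hM hu hu1 huu
  have hsr : 0 ≤ Real.sqrt r := Real.sqrt_nonneg r
  have key := frz hBE hK hs hl hU (τ := τ) (χ := ψ) (u := u) (S := closedBall x₀ (2 * r))
    (D := D') (T := T) (L := L) (ρ := ‖x₀‖ + 2) (N := 2 * D' * N)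
    (θ := 5 * T * Real.sqrt r) hψc hu2 hψ1 hψ2 hz1 hz2 hT hL (by positivity) hτ
    (fun i => HS_coord hr1 i) hu hu1 (HS.ext_mul hψ0 hψz hF hN) (by positivity) ?_ hrs
    ⟨_, hex⟩ i j
  · refine (HS.of_H0 key).congr ?_
    intro x hx
    rw [pd_pd_mul hψc hu2, hψone x hx, ho1 i x hx, ho1 j x hx, ho2 i j x hx]
    ring
  · intro A hA i j x y
    have hA0 : 0 ≤ A := H0_nonneg (hA i j)
    have hsup : ∀ x, |pd i (pd j (fun x => ψ x * u x)) x| ≤ 3 * A * Real.sqrt r := by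
      intro x
      by_cases hx : x ∈ closedBall x₀ (2 * r)
      · set y : E n := x₀ + (3 * r) • EuclideanSpace.single i (1 : ℝ) with hy
        have hyd : dist y x₀ = 3 * r := by
          rw [hy, dist_eq_norm]
          simp [norm_smul, abs_of_pos hr]
        have hyn : y ∉ closedBall x₀ (2 * r) := by
          rw [mem_closedBall, hyd]
          linarith
        have h1 := (hA i j).2 x y
        rw [hvz i j y hyn, sub_zero] at h1
        have hd : dist x y ≤ 5 * r := by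
          have := dist_triangle_right x y x₀
          rw [mem_closedBall] at hx
          linarith
        have h2 : Real.sqrt (dist x y) ≤ 3 * Real.sqrt r := by
          have : Real.sqrt (dist x y) ≤ Real.sqrt (3 * 3 * r) := by
            apply Real.sqrt_le_sqrt
            linarith
          rw [Real.sqrt_mul (by norm_num), Real.sqrt_mul_self (by norm_num)] at this
          exact this
        calc _ ≤ A * Real.sqrt (dist x y) := h1
          _ ≤ A * (3 * Real.sqrt r) := mul_le_mul_of_nonneg_left h2 hA0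
          _ = _ := by ring
      · rw [hvz i j x hx, abs_zero]
        positivity
    have hsm : ∀ x ∈ closedBall x₀ (2 * r), |τ x i j - τ x₀ i j| ≤ 2 * T * Real.sqrt r := by
      intro x hx
      have h1 := (hτ i j).2 x hx x₀ hx₀
      rw [mem_closedBall] at hx
      have h2 : Real.sqrt (dist x x₀) ≤ 2 * Real.sqrt r := by
        have : Real.sqrt (dist x x₀) ≤ Real.sqrt (2 * 2 * r) := by
          apply Real.sqrt_le_sqrt
          linarith
        rw [Real.sqrt_mul (by norm_num), Real.sqrt_mul_self (by norm_num)] at this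
        exact this
      calc _ ≤ T * Real.sqrt (dist x x₀) := h1
        _ ≤ T * (2 * Real.sqrt r) := mul_le_mul_of_nonneg_left h2 hT
        _ = _ := by ring
    have hsm2 : ∀ x ∈ closedBall x₀ (2 * r), ∀ y ∈ closedBall x₀ (2 * r),
        |τ x i j - τ x₀ i j - (τ y i j - τ x₀ i j)| ≤ T * Real.sqrt (dist x y) := by
      intro x hx y hy
      have h1 := (hτ i j).2 x hx y hy
      have e : τ x i j - τ x₀ i j - (τ y i j - τ x₀ i j) = τ x i j - τ y i j := by ring
      rw [e]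
      exact h1
    have := seminorm_mul_small (a := fun x => τ x i j - τ x₀ i j)
      (b := pd i (pd j (fun x => ψ x * u x))) hsm hsm2 (hvz i j) hsup (hA i j).2
      (by positivity) hT hA0 x y
    refine this.trans (le_of_eq ?_)
    ring

end CM50
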