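import Pool.Agent.Helper32.MM.DefsB2

/-!
# Project MM, block B2: the time weights and the splitting lemma
-/

namespace CM50.Split

open MeasureTheory Real Set MMB2

/-- the function `e^{-κt}·(e^{-t}/s)^2·√s` -/
noncomputable def w2 (κ t : ℝ) : ℝ := Real.exp (-κ * t) * ((Real.exp (-t) / sg t) ^ 2 * √(sg t))
/-- the function `e^{-κt}·(e^{-t}/s)^3·√s` -/
noncomputable def w3 (κ t : ℝ) : ℝ := Real.exp (-κ * t) * ((Real.exp (-t) / sg t) ^ 3 * √(sg t))

theorem qpos {t : ℝ} (ht : 0 < t) : 0 < 1 - Real.exp (-2 * t) := by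
  have : Real.exp (-2 * t) < 1 := by
    rw [Real.exp_lt_one_iff]
    linarith
  linarith

theorem q_ge {t : ℝ} (ht : 0 < t) : t / (1 + t) ≤ 1 - Real.exp (-2 * t) := by
  have h1 : 1 + t ≤ Real.exp (2 * t) := by
    have := Real.add_one_le_exp (2 * t)
    linarith
  have h2 : Real.exp (-2 * t) ≤ (1 + t)⁻¹ := by
    have e : Real.exp (-2 * t) = (Real.exp (2 * t))⁻¹ := by
      rw [← Real.exp_neg]
      ring_nf
    rw [e]
    exact inv_anti₀ (by positivity) h1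
  have h3 : t / (1 + t) = 1 - (1 + t)⁻¹ := by
    field_simp
    ring
  rw [h3]
  linarith

theorem sg_eq (t : ℝ) : sg t = (1 - Real.exp (-2 * t)) ^ ((1 : ℝ) / 2) := by
  rw [sg, Real.sqrt_eq_rpow]

theorem sqrt_sg_eq {t : ℝ} (ht : 0 < t) : √(sg t) = (1 - Real.exp (-2 * t)) ^ ((1 : ℝ) / 4) := by
  rw [sg_eq, Real.sqrt_eq_rpow, ← Real.rpow_mul (qpos ht).le]
  norm_num

theorem exp_kappa_le {κ t : ℝ} (hκ : -1 ≤ κ) (ht : 0 < t) : Real.exp (-κ * t) ≤ Real.exp t := by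
  apply Real.exp_le_exp.2
  nlinarith

theorem one_add_le_exp' {t : ℝ} : 1 + t ≤ Real.exp t := by
  have := Real.add_one_le_exp t
  linarith

theorem w2_le {κ t : ℝ} (hκ : -1 ≤ κ) (ht : 0 < t) :
    w2 κ t ≤ Real.exp (-t) * (1 + t) * t ^ (-(3 : ℝ) / 4) := by
  have hq := qpos ht
  have h1 : (Real.exp (-t) / sg t) ^ 2 * √(sg t) =
      Real.exp (-t) * Real.exp (-t) * (1 - Real.exp (-2 * t)) ^ (-(3 : ℝ) / 4) := by
    rw [sqrt_sg_eq ht, div_pow, sg_eq]
    have e1 : ((1 - Real.exp (-2 * t)) ^ ((1 : ℝ) / 2)) ^ 2 = 1 - Real.exp (-2 * t) := by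
      rw [← Real.rpow_natCast, ← Real.rpow_mul hq.le]
      norm_num
    rw [e1]
    have e2 : (1 - Real.exp (-2 * t)) ^ ((1 : ℝ) / 4) =
        (1 - Real.exp (-2 * t)) * (1 - Real.exp (-2 * t)) ^ (-(3 : ℝ) / 4) := by
      conv_rhs => rw [← Real.rpow_one_add' hq.le (by norm_num)]
      norm_num
    rw [e2]
    clear e1 e2
    generalize 1 - Real.exp (-2 * t) = q at hq
    have hq' := hq.ne'
    generalize q ^ (-(3 : ℝ) / 4) = p
    field_simp
  have h2 : (1 - Real.exp (-2 * t)) ^ (-(3 : ℝ) / 4) ≤ (1 + t) * t ^ (-(3 : ℝ) / 4) := by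
    have a1 : (1 - Real.exp (-2 * t)) ^ (-(3 : ℝ) / 4) ≤ (t / (1 + t)) ^ (-(3 : ℝ) / 4) :=
      Real.rpow_le_rpow_of_nonpos (by positivity) (q_ge ht) (by norm_num)
    have a2 : (t / (1 + t)) ^ (-(3 : ℝ) / 4) = (1 + t) ^ ((3 : ℝ) / 4) * t ^ (-(3 : ℝ) / 4) := by
      rw [Real.div_rpow ht.le (by positivity), neg_div,
        Real.rpow_neg (by positivity : (0 : ℝ) ≤ 1 + t)]
      field_simp
    have a3 : (1 + t) ^ ((3 : ℝ) / 4) ≤ 1 + t := by
      conv_rhs => rw [← Real.rpow_one (1 + t)]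
      exact Real.rpow_le_rpow_of_exponent_le (by linarith) (by norm_num)
    rw [a2] at a1
    exact a1.trans (mul_le_mul_of_nonneg_right a3 (by positivity))
  rw [w2, h1]
  have h3 := exp_kappa_le hκ ht
  have h4 : Real.exp t * (Real.exp (-t) * Real.exp (-t)) = Real.exp (-t) := by
    rw [← Real.exp_add, ← Real.exp_add]
    ring_nf
  calc Real.exp (-κ * t) * (Real.exp (-t) * Real.exp (-t) *
        (1 - Real.exp (-2 * t)) ^ (-(3 : ℝ) / 4))
      ≤ Real.exp t * (Real.exp (-t) * Real.exp (-t) * ((1 + t) * t ^ (-(3 : ℝ) / 4))) := by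
        apply mul_le_mul h3 (mul_le_mul_of_nonneg_left h2 (by positivity)) (by positivity)
          (by positivity)
    _ = (Real.exp t * (Real.exp (-t) * Real.exp (-t))) * ((1 + t) * t ^ (-(3 : ℝ) / 4)) := by ring
    _ = _ := by rw [h4]; ring

theorem w2_le' {κ t : ℝ} (hκ : -1 ≤ κ) (ht : 0 < t) : w2 κ t ≤ t ^ (-(3 : ℝ) / 4) := by
  refine (w2_le hκ ht).trans ?_
  have h : Real.exp (-t) * (1 + t) ≤ 1 := by
    have h1 := mul_le_mul_of_nonneg_left (one_add_le_exp' (t := t)) (Real.exp_pos (-t)).le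
    rw [← Real.exp_add] at h1
    simpa using h1
  calc _ ≤ 1 * t ^ (-(3 : ℝ) / 4) := mul_le_mul_of_nonneg_right h (by positivity)
    _ = _ := one_mul _

theorem w3_le {κ t : ℝ} (hκ : -1 ≤ κ) (ht : 0 < t) : w3 κ t ≤ t ^ (-(5 : ℝ) / 4) := by
  have hq := qpos ht
  have h1 : (Real.exp (-t) / sg t) ^ 3 * √(sg t) =
      Real.exp (-t) ^ 3 * (1 - Real.exp (-2 * t)) ^ (-(5 : ℝ) / 4) := by
    rw [sqrt_sg_eq ht, div_pow, sg_eq]
    have e1 : ((1 - Real.exp (-2 * t)) ^ ((1 : ℝ) / 2)) ^ 3 =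
        (1 - Real.exp (-2 * t)) ^ ((3 : ℝ) / 2) := by
      rw [← Real.rpow_natCast, ← Real.rpow_mul hq.le]
      norm_num
    rw [e1]
    have e2 : (1 - Real.exp (-2 * t)) ^ ((1 : ℝ) / 4) =
        (1 - Real.exp (-2 * t)) ^ ((3 : ℝ) / 2) * (1 - Real.exp (-2 * t)) ^ (-(5 : ℝ) / 4) := by
      rw [← Real.rpow_add hq]
      norm_num
    rw [e2]
    have : (1 - Real.exp (-2 * t)) ^ ((3 : ℝ) / 2) ≠ 0 := (Real.rpow_pos_of_pos hq _).ne'
    clear e1 e2
    generalize (1 - Real.exp (-2 * t)) ^ (-(5 : ℝ) / 4) = p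
    generalize (1 - Real.exp (-2 * t)) ^ ((3 : ℝ) / 2) = w at this
    field_simp
  have h2 : (1 - Real.exp (-2 * t)) ^ (-(5 : ℝ) / 4) ≤ (1 + t) ^ 2 * t ^ (-(5 : ℝ) / 4) := by
    have a1 : (1 - Real.exp (-2 * t)) ^ (-(5 : ℝ) / 4) ≤ (t / (1 + t)) ^ (-(5 : ℝ) / 4) :=
      Real.rpow_le_rpow_of_nonpos (by positivity) (q_ge ht) (by norm_num)
    have a2 : (t / (1 + t)) ^ (-(5 : ℝ) / 4) = (1 + t) ^ ((5 : ℝ) / 4) * t ^ (-(5 : ℝ) / 4) := by
      rw [Real.div_rpow ht.le (by positivity), neg_div,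
        Real.rpow_neg (by positivity : (0 : ℝ) ≤ 1 + t)]
      field_simp
    have a3 : (1 + t) ^ ((5 : ℝ) / 4) ≤ (1 + t) ^ 2 := by
      rw [← Real.rpow_natCast (1 + t) 2]
      exact Real.rpow_le_rpow_of_exponent_le (by linarith) (by norm_num)
    rw [a2] at a1
    exact a1.trans (mul_le_mul_of_nonneg_right a3 (by positivity))
  rw [w3, h1]
  have h3 := exp_kappa_le hκ ht
  have h5 : Real.exp t * Real.exp (-t) ^ 3 * (1 + t) ^ 2 ≤ 1 := by
    have h6 : Real.exp t * Real.exp (-t) ^ 3 = Real.exp (-t) ^ 2 := by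
      have : Real.exp t * Real.exp (-t) = 1 := by rw [← Real.exp_add]; simp
      calc Real.exp t * Real.exp (-t) ^ 3 = (Real.exp t * Real.exp (-t)) * Real.exp (-t) ^ 2 := by
            ring
        _ = _ := by rw [this, one_mul]
    rw [h6, ← mul_pow]
    have h1 := mul_le_mul_of_nonneg_left (one_add_le_exp' (t := t)) (Real.exp_pos (-t)).le
    rw [← Real.exp_add] at h1
    have h7 : Real.exp (-t) * (1 + t) ≤ 1 := by simpa using h1
    exact pow_le_one₀ (by positivity) h7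
  calc Real.exp (-κ * t) * (Real.exp (-t) ^ 3 * (1 - Real.exp (-2 * t)) ^ (-(5 : ℝ) / 4))
      ≤ Real.exp t * (Real.exp (-t) ^ 3 * ((1 + t) ^ 2 * t ^ (-(5 : ℝ) / 4))) := by
        apply mul_le_mul h3 (mul_le_mul_of_nonneg_left h2 (by positivity)) (by positivity)
          (by positivity)
    _ = (Real.exp t * Real.exp (-t) ^ 3 * (1 + t) ^ 2) * t ^ (-(5 : ℝ) / 4) := by ring
    _ ≤ 1 * t ^ (-(5 : ℝ) / 4) := mul_le_mul_of_nonneg_right h5 (by positivity)
    _ = _ := one_mul _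

theorem w2_nonneg (κ t : ℝ) : 0 ≤ w2 κ t := by
  rw [w2]
  positivity

theorem w3_nonneg (κ t : ℝ) : 0 ≤ w3 κ t := by
  rw [w3]
  have : 0 ≤ sg t := Real.sqrt_nonneg _
  positivity

theorem measurable_sg : Measurable sg := by
  unfold sg
  fun_prop

theorem measurable_w2 (κ : ℝ) : Measurable (w2 κ) := by
  have := measurable_sg
  unfold w2
  fun_prop

theorem measurable_w3 (κ : ℝ) : Measurable (w3 κ) := by
  have := measurable_sg
  unfold w3
  fun_prop

/-- the integrable majorant -/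
noncomputable def bb (t : ℝ) : ℝ :=
  Real.exp (-t) * t ^ ((1 : ℝ) / 4 - 1) + Real.exp (-t) * t ^ ((5 : ℝ) / 4 - 1)

theorem integrableOn_bb : IntegrableOn bb (Ioi 0) :=
  (Real.GammaIntegral_convergent (by norm_num)).add (Real.GammaIntegral_convergent (by norm_num))

theorem w2_le_bb {κ t : ℝ} (hκ : -1 ≤ κ) (ht : 0 < t) : w2 κ t ≤ bb t := by
  refine (w2_le hκ ht).trans (le_of_eq ?_)
  have e : t ^ ((5 : ℝ) / 4 - 1) = t * t ^ (-(3 : ℝ) / 4) := by
    conv_rhs => rw [← Real.rpow_one_add' ht.le (by norm_num)]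
    norm_num
  have e2 : ((1 : ℝ) / 4 - 1) = -(3 : ℝ) / 4 := by norm_num
  rw [bb, e, e2]
  ring

theorem integrableOn_w2 {κ : ℝ} (hκ : -1 ≤ κ) : IntegrableOn (w2 κ) (Ioi 0) := by
  refine Integrable.mono' integrableOn_bb (measurable_w2 κ).aestronglyMeasurable ?_
  filter_upwards [ae_restrict_mem measurableSet_Ioi] with t ht
  rw [Real.norm_of_nonneg (w2_nonneg κ t)]
  exact w2_le_bb hκ ht

/-- absolute constant -/
theorem integral_w2_le : ∃ B : ℝ, 0 ≤ B ∧ ∀ κ : ℝ, -1 ≤ κ → ∫ t in Ioi 0, w2 κ t ≤ B := by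
  refine ⟨∫ t in Ioi 0, bb t, ?_, fun κ hκ => ?_⟩
  · apply setIntegral_nonneg measurableSet_Ioi
    intro t ht
    have : (0 : ℝ) < t := ht
    rw [bb]
    positivity
  · exact setIntegral_mono_on (integrableOn_w2 hκ) integrableOn_bb measurableSet_Ioi
      (fun t ht => w2_le_bb hκ ht)

/-- splitting at `t = d²` : `∫ min (2 w2) (d w3) ≤ B √d` -/
theorem split_le : ∃ B : ℝ, 0 ≤ B ∧ ∀ κ : ℝ, -1 ≤ κ → ∀ d : ℝ, 0 ≤ d →
    ∫ t in Ioi 0, min (2 * w2 κ t) (d * w3 κ t) ≤ B * √d := by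
  refine ⟨32, by norm_num, fun κ hκ d hd => ?_⟩
  rcases hd.eq_or_lt with rfl | hd
  · have : ∀ t, min (2 * w2 κ t) (0 * w3 κ t) = 0 := by
      intro t
      rw [zero_mul]
      exact min_eq_right (by have := w2_nonneg κ t; linarith)
    simp only [this]
    simp
  · have hd2 : 0 < d ^ 2 := by positivity
    have hmn : ∀ t, 0 ≤ min (2 * w2 κ t) (d * w3 κ t) := fun t =>
      le_min (mul_nonneg (by norm_num) (w2_nonneg κ t)) (mul_nonneg hd.le (w3_nonneg κ t))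
    have hmeas : Measurable (fun t => min (2 * w2 κ t) (d * w3 κ t)) :=
      ((measurable_w2 κ).const_mul 2).min ((measurable_w3 κ).const_mul d)
    have hint : IntegrableOn (fun t => min (2 * w2 κ t) (d * w3 κ t)) (Ioi 0) := by
      refine Integrable.mono' ((integrableOn_w2 hκ).const_mul 2) hmeas.aestronglyMeasurable ?_
      filter_upwards with t
      rw [Real.norm_of_nonneg (hmn t)]
      exact min_le_left _ _
    have hsplit : Ioi (0 : ℝ) = Ioc 0 (d ^ 2) ∪ Ioi (d ^ 2) := (Ioc_union_Ioi_eq_Ioi hd2.le).symm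
    rw [hsplit, setIntegral_union (Ioc_disjoint_Ioi le_rfl) measurableSet_Ioi
      (hint.mono_set Ioc_subset_Ioi_self) (hint.mono_set (Ioi_subset_Ioi hd2.le))]
    have hr : -1 < (-(3 : ℝ) / 4) := by norm_num
    have i1 : IntegrableOn (fun t : ℝ => t ^ (-(3 : ℝ) / 4)) (Ioc 0 (d ^ 2)) :=
      (intervalIntegrable_iff_integrableOn_Ioc_of_le hd2.le).1
        (intervalIntegral.intervalIntegrable_rpow' hr)
    have e1 : ∫ t in Ioc 0 (d ^ 2), t ^ (-(3 : ℝ) / 4) = 4 * √d := by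
      rw [← intervalIntegral.integral_of_le hd2.le, integral_rpow (Or.inl hr)]
      have : (-(3 : ℝ) / 4 + 1) = 1 / 4 := by norm_num
      rw [this, Real.zero_rpow (by norm_num), sub_zero, Real.sqrt_eq_rpow,
        ← Real.rpow_natCast d 2, ← Real.rpow_mul hd.le]
      norm_num
      ring
    have i2 : IntegrableOn (fun t : ℝ => t ^ (-(5 : ℝ) / 4)) (Ioi (d ^ 2)) :=
      integrableOn_Ioi_rpow_of_lt (by norm_num) hd2
    have e2 : d * ∫ t in Ioi (d ^ 2), t ^ (-(5 : ℝ) / 4) = 4 * √d := by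
      rw [integral_Ioi_rpow_of_lt (by norm_num) hd2]
      have : (-(5 : ℝ) / 4 + 1) = -(1 / 4) := by norm_num
      rw [this, Real.sqrt_eq_rpow, ← Real.rpow_natCast d 2, ← Real.rpow_mul hd.le]
      have e3 : d ^ ((1 : ℝ) / 2) = d * d ^ (((2 : ℕ) : ℝ) * -(1 / 4)) := by
        conv_rhs => rw [← Real.rpow_one_add' hd.le (by norm_num)]
        norm_num
      rw [e3]
      ring
    have b1 : ∫ t in Ioc 0 (d ^ 2), min (2 * w2 κ t) (d * w3 κ t) ≤
        ∫ t in Ioc 0 (d ^ 2), 2 * t ^ (-(3 : ℝ) / 4) := by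
      apply setIntegral_mono_on (hint.mono_set Ioc_subset_Ioi_self) (i1.const_mul 2)
        measurableSet_Ioc
      intro t ht
      exact (min_le_left _ _).trans (mul_le_mul_of_nonneg_left (w2_le' hκ ht.1) (by norm_num))
    have b2 : ∫ t in Ioi (d ^ 2), min (2 * w2 κ t) (d * w3 κ t) ≤
        ∫ t in Ioi (d ^ 2), d * t ^ (-(5 : ℝ) / 4) := by
      apply setIntegral_mono_on (hint.mono_set (Ioi_subset_Ioi hd2.le)) (i2.const_mul d)
        measurableSet_Ioi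
      intro t ht
      exact (min_le_right _ _).trans
        (mul_le_mul_of_nonneg_left (w3_le hκ (hd2.trans ht)) hd.le)
    rw [integral_const_mul, e1] at b1
    rw [integral_const_mul, e2] at b2
    have : 0 ≤ √d := Real.sqrt_nonneg d
    linarith

end CM50.Split
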